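import Mathlib

set_option autoImplicit false

namespace Pool.Agent.Lib_helper43

open Finset MeasureTheory

lemma crossing {α : Type} (R : α → α → Prop) (φ : α → ℝ) (c : ℝ) {a b : α}
    (hab : Relation.ReflTransGen R a b) (ha : c ≤ φ a) (hb : φ b < c) :
    ∃ u v, R u v ∧ c ≤ φ u ∧ φ v < c := by
  induction hab with
  | refl => exact absurd ha (not_le.mpr hb)
  | tail hab hbc ih =>
    rename_i b' c'
    by_cases h : φ b' < c
    · exact ih h
    · push Not at h
      exact ⟨b', c', hbc, h, hb⟩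

/-- Length of an upward edge is covered by the downward edges starting above its source. -/
lemma up_le_sum_down {α : Type} (E : Finset (α × α)) (φ : α → ℝ) (e : α × α)
    (hpath : Relation.ReflTransGen (fun u v => (u, v) ∈ E) e.2 e.1) :
    φ e.2 - φ e.1 ≤ ∑ e' ∈ E.filter (fun e' => φ e.1 < φ e'.1), max (φ e'.1 - φ e'.2) 0 := by
  classical
  have hcover : Set.Ioc (φ e.1) (φ e.2) ⊆
      ⋃ e' ∈ E.filter (fun e' => φ e.1 < φ e'.1), Set.Ioc (φ e'.2) (φ e'.1) := by
    intro c hc
    obtain ⟨u, v, huv, hu, hv⟩ := crossing (fun u v => (u, v) ∈ E) φ c hpath hc.2 hc.1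
    simp only [Set.mem_iUnion]
    refine ⟨(u, v), ?_, hv, hu⟩
    rw [Finset.mem_filter]
    exact ⟨huv, lt_of_lt_of_le hc.1 hu⟩
  have h1 : volume (Set.Ioc (φ e.1) (φ e.2)) ≤
      ∑ e' ∈ E.filter (fun e' => φ e.1 < φ e'.1), volume (Set.Ioc (φ e'.2) (φ e'.1)) :=
    le_trans (measure_mono hcover) (measure_biUnion_finset_le _ _)
  simp only [Real.volume_Ioc] at h1
  have h2 : ∑ e' ∈ E.filter (fun e' => φ e.1 < φ e'.1), ENNReal.ofReal (φ e'.1 - φ e'.2) =
      ENNReal.ofReal (∑ e' ∈ E.filter (fun e' => φ e.1 < φ e'.1), max (φ e'.1 - φ e'.2) 0) := by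
    rw [ENNReal.ofReal_sum_of_nonneg (fun _ _ => le_max_right _ _)]
    refine Finset.sum_congr rfl fun e' _ => ?_
    rcases le_total (φ e'.1 - φ e'.2) 0 with h | h
    · rw [max_eq_right h, ENNReal.ofReal_of_nonpos h, ENNReal.ofReal_zero]
    · rw [max_eq_left h]
  rw [h2] at h1
  exact (ENNReal.ofReal_le_ofReal_iff
    (Finset.sum_nonneg fun _ _ => le_max_right _ _)).mp h1

/-- The drift in direction `w` is nonpositive if all monomials with larger `w`-level dominate. -/
lemma drift_nonpos {α : Type} (E : Finset (α × α)) (φ : α → ℝ) (m : α → ℝ) (k : α × α → ℝ)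
    (ε M : ℝ) (hε : 0 < ε)
    (hpath : ∀ e ∈ E, Relation.ReflTransGen (fun u v => (u, v) ∈ E) e.2 e.1)
    (hk : ∀ e ∈ E, ε ≤ k e ∧ k e ≤ 1 / ε)
    (hm : ∀ e ∈ E, 0 < m e.1)
    (hM : (E.card : ℝ) / ε ^ 2 ≤ Real.exp M)
    (hdom : ∀ e ∈ E, ∀ e' ∈ E, φ e.1 < φ e'.1 → Real.exp M * m e.1 ≤ m e'.1) :
    ∑ e ∈ E, (k e * m e.1) * (φ e.2 - φ e.1) ≤ 0 := by
  classical
  set dn : ℝ := ∑ e ∈ E, (k e * m e.1) * max (φ e.1 - φ e.2) 0 with hdn
  have hkpos : ∀ e ∈ E, 0 < k e := fun e he => lt_of_lt_of_le hε (hk e he).1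
  have hdn0 : 0 ≤ dn := Finset.sum_nonneg fun e he =>
    mul_nonneg (mul_nonneg (hkpos e he).le (hm e he).le) (le_max_right _ _)
  have hsplit : ∀ e ∈ E, (k e * m e.1) * (φ e.2 - φ e.1) =
      (k e * m e.1) * max (φ e.2 - φ e.1) 0 - (k e * m e.1) * max (φ e.1 - φ e.2) 0 := by
    intro e _
    rcases le_total (φ e.2) (φ e.1) with h | h
    · rw [max_eq_right (by linarith), max_eq_left (by linarith)]; ring
    · rw [max_eq_left (by linarith), max_eq_right (by linarith)]; ring
  rw [Finset.sum_congr rfl hsplit, Finset.sum_sub_distrib]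
  have hup : ∀ e ∈ E, (k e * m e.1) * max (φ e.2 - φ e.1) 0 ≤ (1 / ε ^ 2) * Real.exp (-M) * dn := by
    intro e he
    have hR : 0 ≤ (1 / ε ^ 2) * Real.exp (-M) * dn := by positivity
    rcases le_total (φ e.2 - φ e.1) 0 with h | h
    · rw [max_eq_right h, mul_zero]; exact hR
    · rw [max_eq_left h]
      have h1 := up_le_sum_down E φ e (hpath e he)
      have hmk : 0 ≤ k e * m e.1 := mul_nonneg (hkpos e he).le (hm e he).le
      calc (k e * m e.1) * (φ e.2 - φ e.1)
          ≤ (k e * m e.1) * ∑ e' ∈ E.filter (fun e' => φ e.1 < φ e'.1), max (φ e'.1 - φ e'.2) 0 :=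
            mul_le_mul_of_nonneg_left h1 hmk
        _ = ∑ e' ∈ E.filter (fun e' => φ e.1 < φ e'.1), (k e * m e.1) * max (φ e'.1 - φ e'.2) 0 := by
            rw [Finset.mul_sum]
        _ ≤ ∑ e' ∈ E.filter (fun e' => φ e.1 < φ e'.1),
              ((1 / ε ^ 2) * Real.exp (-M)) * ((k e' * m e'.1) * max (φ e'.1 - φ e'.2) 0) := by
            refine Finset.sum_le_sum fun e' he' => ?_
            rw [Finset.mem_filter] at he'
            have h2 := hdom e he e' he'.1 he'.2
            have h3 : m e.1 ≤ Real.exp (-M) * m e'.1 := by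
              have : Real.exp (-M) * (Real.exp M * m e.1) ≤ Real.exp (-M) * m e'.1 :=
                mul_le_mul_of_nonneg_left h2 (Real.exp_pos _).le
              rwa [← mul_assoc, ← Real.exp_add, neg_add_cancel, Real.exp_zero, one_mul] at this
            have h4 : k e * m e.1 ≤ (1 / ε ^ 2) * Real.exp (-M) * (k e' * m e'.1) := by
              have h5 : k e ≤ 1 / ε := (hk e he).2
              have h6 : ε ≤ k e' := (hk e' he'.1).1
              have h7 : 0 < m e'.1 := hm e' he'.1
              calc k e * m e.1 ≤ (1 / ε) * (Real.exp (-M) * m e'.1) :=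
                    mul_le_mul h5 h3 (hm e he).le (by positivity)
                _ = (1 / ε ^ 2) * Real.exp (-M) * (ε * m e'.1) := by
                    field_simp
                _ ≤ (1 / ε ^ 2) * Real.exp (-M) * (k e' * m e'.1) := by
                    apply mul_le_mul_of_nonneg_left _ (by positivity)
                    exact mul_le_mul_of_nonneg_right h6 h7.le
            calc (k e * m e.1) * max (φ e'.1 - φ e'.2) 0
                ≤ ((1 / ε ^ 2) * Real.exp (-M) * (k e' * m e'.1)) * max (φ e'.1 - φ e'.2) 0 :=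
                  mul_le_mul_of_nonneg_right h4 (le_max_right _ _)
              _ = ((1 / ε ^ 2) * Real.exp (-M)) * ((k e' * m e'.1) * max (φ e'.1 - φ e'.2) 0) := by ring
        _ = ((1 / ε ^ 2) * Real.exp (-M)) * ∑ e' ∈ E.filter (fun e' => φ e.1 < φ e'.1),
              ((k e' * m e'.1) * max (φ e'.1 - φ e'.2) 0) := by rw [Finset.mul_sum]
        _ ≤ ((1 / ε ^ 2) * Real.exp (-M)) * dn := by
            apply mul_le_mul_of_nonneg_left _ (by positivity)
            rw [hdn]
            apply Finset.sum_le_sum_of_subset_of_nonneg (Finset.filter_subset _ _)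
            intro e' he' _
            exact mul_nonneg (mul_nonneg (hkpos e' he').le (hm e' he').le) (le_max_right _ _)
  have hsum := Finset.sum_le_sum hup
  rw [Finset.sum_const, nsmul_eq_mul] at hsum
  have hle : (E.card : ℝ) * ((1 / ε ^ 2) * Real.exp (-M) * dn) ≤ dn := by
    have h1 : (E.card : ℝ) * ((1 / ε ^ 2) * Real.exp (-M)) ≤ 1 := by
      have : (E.card : ℝ) * ((1 / ε ^ 2) * Real.exp (-M)) = ((E.card : ℝ) / ε ^ 2) * Real.exp (-M) := by
        ring
      rw [this]
      calc ((E.card : ℝ) / ε ^ 2) * Real.exp (-M) ≤ Real.exp M * Real.exp (-M) :=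
            mul_le_mul_of_nonneg_right hM (Real.exp_pos _).le
        _ = 1 := by rw [← Real.exp_add, add_neg_cancel, Real.exp_zero]
    calc (E.card : ℝ) * ((1 / ε ^ 2) * Real.exp (-M) * dn)
        = ((E.card : ℝ) * ((1 / ε ^ 2) * Real.exp (-M))) * dn := by ring
      _ ≤ 1 * dn := mul_le_mul_of_nonneg_right h1 hdn0
      _ = dn := one_mul _
  linarith

end Pool.Agent.Lib_helper43
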