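import Mathlib

set_option autoImplicit false

namespace Pool.Agent.Lib_helper43

open Filter Topology Set

/-- A maximum principle for finitely many functions: if, near the level `0`, every function that
attains the maximum has nonpositive derivative, the maximum stays nonpositive. -/
theorem max_invariance {ι : Type} [Finite ι] (I : Set ℝ) (hI : I.OrdConnected) (h0 : (0 : ℝ) ∈ I)
    (f f' : ι → ℝ → ℝ) (hf : ∀ a, ∀ t ∈ I, HasDerivWithinAt (f a) (f' a t) I t)
    (ε : ℝ) (hε : 0 < ε) (hstart : ∀ a, f a 0 ≤ 0)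
    (hact : ∀ t ∈ I, 0 ≤ t → (∀ a, f a t ≤ ε) → ∀ a, 0 ≤ f a t → (∀ a', f a' t ≤ f a t) →
      f' a t ≤ 0) :
    ∀ t ∈ I, 0 ≤ t → ∀ a, f a t ≤ 0 := by
  intro t₁ ht₁ h0t₁
  have hsub : Icc (0 : ℝ) t₁ ⊆ I := hI.out h0 ht₁
  -- claim for small slopes
  have hclaim : ∀ δ : ℝ, 0 < δ → δ * t₁ ≤ ε → ∀ a, f a t₁ ≤ δ * t₁ := by
    intro δ hδ hδε
    let s : Set ℝ := {t | ∀ a, f a t ≤ δ * t}
    have hclosed : IsClosed (s ∩ Icc (0 : ℝ) t₁) := by
      have hcont : ∀ a, ContinuousOn (fun t => f a t - δ * t) (Icc (0 : ℝ) t₁) := by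
        intro a
        apply ContinuousOn.sub
        · intro t ht
          exact ((hf a t (hsub ht)).continuousWithinAt).mono hsub
        · fun_prop
      have heq : s ∩ Icc (0 : ℝ) t₁ =
          Icc (0 : ℝ) t₁ ∩ ⋂ a, (Icc (0 : ℝ) t₁ ∩ (fun t => f a t - δ * t) ⁻¹' Iic 0) := by
        ext t
        simp only [s, mem_inter_iff, mem_setOf_eq, mem_iInter, mem_preimage, mem_Iic]
        constructor
        · rintro ⟨h1, h2⟩
          exact ⟨h2, fun a => ⟨h2, by have := h1 a; linarith⟩⟩
        · rintro ⟨h1, h2⟩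
          exact ⟨fun a => by have := (h2 a).2; linarith, h1⟩
      rw [heq]
      apply isClosed_Icc.inter
      exact isClosed_iInter fun a => (hcont a).preimage_isClosed_of_isClosed isClosed_Icc isClosed_Iic
    have hstart' : (0 : ℝ) ∈ s := by
      intro a
      have := hstart a
      simpa using this
    have hstep : ∀ x ∈ s ∩ Ico (0 : ℝ) t₁, s ∈ 𝓝[>] x := by
      rintro x ⟨hxs, hx0, hx1⟩
      have hxI : x ∈ I := hsub ⟨hx0, hx1.le⟩
      have hIoo : Ioo x t₁ ⊆ I := fun z hz => hsub ⟨by linarith [hz.1], hz.2.le⟩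
      have hnhds : 𝓝[>] x = 𝓝[Ioo x t₁] x := (nhdsWithin_Ioo_eq_nhdsGT hx1).symm
      rw [show s = {t | ∀ a, f a t ≤ δ * t} from rfl]
      have : ∀ a, ∀ᶠ z in 𝓝[>] x, f a z ≤ δ * z := by
        intro a
        rw [hnhds]
        rcases lt_or_eq_of_le (hxs a) with hlt | heq
        · have hc : ContinuousWithinAt (fun z => f a z - δ * z) (Ioo x t₁) x := by
            apply ContinuousWithinAt.sub
            · exact ((hf a x hxI).continuousWithinAt).mono hIoo
            · fun_prop
          have hlt' : f a x - δ * x < 0 := by linarith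
          have := hc.eventually (Iio_mem_nhds hlt')
          filter_upwards [this] with z hz
          have : f a z - δ * z < 0 := hz
          linarith
        · have hle : f' a x ≤ 0 := by
            apply hact x hxI hx0
            · intro a'
              have h1 := hxs a'
              have h2 : δ * x ≤ δ * t₁ := mul_le_mul_of_nonneg_left hx1.le hδ.le
              linarith
            · rw [heq]; positivity
            · intro a'
              rw [heq]; exact hxs a'
          have hd : HasDerivWithinAt (f a) (f' a x) (Ioo x t₁) x := (hf a x hxI).mono hIoo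
          rw [hasDerivWithinAt_iff_tendsto_slope] at hd
          have hnot : Ioo x t₁ \ {x} = Ioo x t₁ := by
            apply Set.diff_singleton_eq_self
            intro h; exact lt_irrefl _ h.1
          rw [hnot] at hd
          have := hd.eventually (Iio_mem_nhds (lt_of_le_of_lt hle hδ))
          filter_upwards [this, self_mem_nhdsWithin] with z hz hz2
          have hz' : slope (f a) x z < δ := hz
          rw [slope_def_field, div_lt_iff₀ (by linarith [hz2.1])] at hz'
          nlinarith
      exact eventually_all.mpr this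
    have := hclosed.Icc_subset_of_forall_mem_nhdsWithin hstart' hstep
    exact this ⟨h0t₁, le_refl _⟩
  intro a
  by_contra hcon
  push Not at hcon
  -- choose δ small
  have hpos : 0 < t₁ + 1 := by linarith
  set δ : ℝ := min (ε / (t₁ + 1)) (f a t₁ / (2 * (t₁ + 1))) with hδ
  have hδpos : 0 < δ := lt_min (by positivity) (by positivity)
  have h1 : δ * t₁ ≤ ε := by
    have : δ ≤ ε / (t₁ + 1) := min_le_left _ _
    calc δ * t₁ ≤ (ε / (t₁ + 1)) * t₁ := mul_le_mul_of_nonneg_right this h0t₁
      _ ≤ (ε / (t₁ + 1)) * (t₁ + 1) := mul_le_mul_of_nonneg_left (by linarith) (by positivity)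
      _ = ε := by field_simp
  have h2 := hclaim δ hδpos h1 a
  have h3 : δ * t₁ ≤ f a t₁ / 2 := by
    have : δ ≤ f a t₁ / (2 * (t₁ + 1)) := min_le_right _ _
    calc δ * t₁ ≤ (f a t₁ / (2 * (t₁ + 1))) * t₁ := mul_le_mul_of_nonneg_right this h0t₁
      _ ≤ (f a t₁ / (2 * (t₁ + 1))) * (t₁ + 1) :=
          mul_le_mul_of_nonneg_left (by linarith) (by positivity)
      _ = f a t₁ / 2 := by field_simp
  linarith

end Pool.Agent.Lib_helper43
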