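import Pool.Agent.Lib_helper43.Tree

set_option autoImplicit false

namespace Pool.Agent.Lib_helper43

open Finset

/-- Push a vector forward along a map of index sets. -/
noncomputable def pushv {q n : ℕ} (ι : Fin q → Fin n) (w : Fin q → ℝ) : Fin n → ℝ :=
  fun j => ∑ i, if ι i = j then w i else 0

lemma pushv_dot {q n : ℕ} (ι : Fin q → Fin n) (w : Fin q → ℝ) (y : Fin n → ℝ) :
    ∑ j, pushv ι w j * y j = ∑ i, w i * y (ι i) := by
  unfold pushv
  simp only [Finset.sum_mul]
  rw [Finset.sum_comm]
  refine Finset.sum_congr rfl fun i _ => ?_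
  simp only [ite_mul, zero_mul]
  rw [Finset.sum_ite_eq]
  simp

lemma swap_sum {q : ℕ} (w y : Fin q → ℝ) (a b : Fin q) :
    ∑ k, w k * y (Equiv.swap a b k) = ∑ k, w k * y k + (w a - w b) * (y b - y a) := by
  classical
  by_cases hab : a = b
  · subst hab; simp
  have h1 : ∑ k, (w k * y (Equiv.swap a b k) - w k * y k) = (w a - w b) * (y b - y a) := by
    rw [← Finset.sum_subset (Finset.subset_univ ({a, b} : Finset (Fin q)))]
    · rw [Finset.sum_pair hab]
      rw [Equiv.swap_apply_left, Equiv.swap_apply_right]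
      ring
    · intro k _ hk
      simp only [Finset.mem_insert, Finset.mem_singleton, not_or] at hk
      rw [Equiv.swap_apply_of_ne_of_ne hk.1 hk.2]
      ring
  rw [Finset.sum_sub_distrib] at h1
  linarith

lemma update_sum {q : ℕ} {n : ℕ} (w : Fin q → ℝ) (y : Fin n → ℝ) (ι : Fin q → Fin n) (a : Fin q)
    (j : Fin n) :
    ∑ k, w k * y (Function.update ι a j k) = ∑ k, w k * y (ι k) + w a * (y j - y (ι a)) := by
  classical
  have h1 : ∑ k, (w k * y (Function.update ι a j k) - w k * y (ι k)) = w a * (y j - y (ι a)) := by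
    rw [← Finset.sum_subset (Finset.subset_univ ({a} : Finset (Fin q)))]
    · rw [Finset.sum_singleton, Function.update_self]
      ring
    · intro k _ hk
      simp only [Finset.mem_singleton] at hk
      rw [Function.update_of_ne hk]
      ring
  rw [Finset.sum_sub_distrib] at h1
  linarith

/-- The finite family of affine functions attached to subsets of size `q`. -/
theorem exists_kind (n q : ℕ) (D : Finset (Fin n → ℝ)) :
    ∃ A : ℝ, 1 ≤ A ∧ ∀ β ω B : ℝ, 1 ≤ ω → 4 * ((n : ℝ) + 1) * B + 4 ≤ Real.exp ω → q ≤ n →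
      A * ω ≤ B → -(3 / 4) * B ≤ β → β ≤ B → A * ω ≤ |β| →
      ∃ F : Finset ((Fin n → ℝ) × ℝ),
        (∀ (ι : Fin q → Fin n), Function.Injective ι → ∀ k : ℕ, ∃ p ∈ F,
          p.1 = pushv ι (topk β B k) ∧ p.2 ≤ Real.exp (β - 2 * ω) ∧ (k = 0 → p.2 = 0)) ∧
        (∀ p ∈ F, 0 ≤ p.2 ∧ ∃ (ι : Fin q → Fin n) (w : Fin q → ℝ), Function.Injective ι ∧
          p.1 = pushv ι w ∧ (∀ i, -B ≤ w i ∧ w i ≤ β) ∧
          (∀ X : Fin n → ℝ, (∀ p' ∈ F, (∑ j, p'.1 j * Real.exp (X j)) - p'.2 ≤
              (∑ j, p.1 j * Real.exp (X j)) - p.2) →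
            (β < 0 → ∀ j, j ∉ Set.range ι → ∀ i, X (ι i) ≤ X j) ∧
            ((∀ i, -B / 2 ≤ X (ι i) ∧ X (ι i) ≤ β + ω) → ∀ d ∈ D, 0 < ∑ j, p.1 j * d j →
              ω ≤ ∑ i, X (ι i) * d (ι i)))) := by
  classical
  let J : Type := (Fin q → Fin n) × D
  let v : J → Fin q → ℝ := fun j i => (j.2 : Fin n → ℝ) (j.1 i)
  obtain ⟨Λ, A₀, hA₀, hgood⟩ := exists_good q J v
  obtain ⟨Q, hQ1, hQ⟩ := exists_lower Λ (fun lam => lam ((0 : J → ℝ), (1 : ℝ)))
  refine ⟨A₀ * Q, by nlinarith, ?_⟩
  intro β ω B hω hexp hqn hAB hβ1 hβ2 hβ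
  have hAω : A₀ * ω ≤ A₀ * Q * ω := by
    have : 0 ≤ A₀ * ω := by positivity
    nlinarith
  have hB0 : 0 ≤ B := by
    have : 0 ≤ A₀ * Q * ω := by positivity
    linarith
  have hG := hgood (0 : J → ℝ) β ω B hω
    (by
      have : (q : ℝ) ≤ n := by exact_mod_cast hqn
      nlinarith)
    (by linarith) hβ1 hβ2
    (by
      intro lam hlam
      have hval : lam ((0 : J → ℝ), β) = β * lam ((0 : J → ℝ), (1 : ℝ)) := by
        have : ((0 : J → ℝ), β) = β • ((0 : J → ℝ), (1 : ℝ)) := by
          ext <;> simp
        rw [this, map_smul, smul_eq_mul]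
      rw [hval]
      by_cases h0 : lam ((0 : J → ℝ), (1 : ℝ)) = 0
      · left; rw [h0, mul_zero]
      · right
        have h1 := hQ lam hlam h0
        have hpos : 0 < |lam ((0 : J → ℝ), (1 : ℝ))| := abs_pos.mpr h0
        rw [abs_mul]
        calc A₀ * ω ≤ (A₀ * ω) * (Q * |lam ((0 : J → ℝ), (1 : ℝ))|) := by
              have : 0 ≤ A₀ * ω := by positivity
              nlinarith
          _ = (A₀ * Q * ω) * |lam ((0 : J → ℝ), (1 : ℝ))| := by ring
          _ ≤ |β| * |lam ((0 : J → ℝ), (1 : ℝ))| := mul_le_mul_of_nonneg_right hβ hpos.le)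
  obtain ⟨W, h, hG1, hG2, hG3, hG4, hG5⟩ := hG
  let S : Finset (Fin q → Fin n) := Finset.univ.filter Function.Injective
  let F : Finset ((Fin n → ℝ) × ℝ) := (S ×ˢ W).image (fun p => (pushv p.1 p.2, h p.2))
  have hmemF : ∀ (ι : Fin q → Fin n), Function.Injective ι → ∀ w ∈ W, (pushv ι w, h w) ∈ F := by
    intro ι hι w hw
    exact Finset.mem_image.mpr ⟨(ι, w), Finset.mem_product.mpr
      ⟨Finset.mem_filter.mpr ⟨Finset.mem_univ _, hι⟩, hw⟩, rfl⟩
  refine ⟨F, ?_, ?_⟩
  · intro ι hι k
    refine ⟨_, hmemF ι hι _ (hG3 k).1, rfl, (hG3 k).2, ?_⟩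
    rintro rfl
    exact hG4
  · intro p hp
    obtain ⟨⟨ι, w⟩, hm, rfl⟩ := Finset.mem_image.mp hp
    obtain ⟨hιS, hw⟩ := Finset.mem_product.mp hm
    have hι : Function.Injective ι := (Finset.mem_filter.mp hιS).2
    simp only at hw hιS ⊢
    refine ⟨hG2 w hw, ι, w, hι, rfl, (hG1 w hw).2, ?_⟩
    intro X hmax
    -- the maximality in terms of `w`
    have hmax' : ∀ (ι' : Fin q → Fin n), Function.Injective ι' → ∀ w' ∈ W,
        (∑ i, w' i * Real.exp (X (ι' i))) - h w' ≤ (∑ i, w i * Real.exp (X (ι i))) - h w := by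
      intro ι' hι' w' hw'
      have := hmax _ (hmemF ι' hι' w' hw')
      simp only [pushv_dot ι' w' (fun j => Real.exp (X j)),
        pushv_dot ι w (fun j => Real.exp (X j))] at this
      exact this
    refine ⟨?_, ?_⟩
    · intro hβ0 j hj i
      have hinj : Function.Injective (Function.update ι i j) := by
        intro a b hab
        by_cases ha : a = i
        · by_cases hb : b = i
          · rw [ha, hb]
          · rw [ha, Function.update_self, Function.update_of_ne hb] at hab
            exact absurd ⟨b, hab.symm⟩ hj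
        · by_cases hb : b = i
          · rw [hb, Function.update_self, Function.update_of_ne ha] at hab
            exact absurd ⟨a, hab⟩ hj
          · rw [Function.update_of_ne ha, Function.update_of_ne hb] at hab
            exact hι hab
      have h1 := hmax' _ hinj w hw
      rw [update_sum w (fun j => Real.exp (X j)) ι i j] at h1
      have h2 : w i * (Real.exp (X j) - Real.exp (X (ι i))) ≤ 0 := by linarith
      have h3 : w i < 0 := lt_of_le_of_lt ((hG1 w hw).2 i).2 hβ0
      have h4 : 0 ≤ Real.exp (X j) - Real.exp (X (ι i)) := by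
        by_contra hcon
        push Not at hcon
        have := mul_pos_of_neg_of_neg h3 hcon
        linarith
      exact Real.exp_le_exp.mp (by linarith)
    · intro hdom d hd hpos
      -- swapping property
      have hswap : ∀ a b : Fin q, w b < w a → X (ι b) ≤ X (ι a) := by
        intro a b hab
        have hinj : Function.Injective (ι ∘ (Equiv.swap a b)) := hι.comp (Equiv.injective _)
        have h1 := hmax' _ hinj w hw
        simp only [Function.comp] at h1
        rw [swap_sum w (fun k => Real.exp (X (ι k))) a b] at h1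
        have h2 : (w a - w b) * (Real.exp (X (ι b)) - Real.exp (X (ι a))) ≤ 0 := by linarith
        have h4 : Real.exp (X (ι b)) - Real.exp (X (ι a)) ≤ 0 := by
          by_contra hcon
          push Not at hcon
          have := mul_pos (sub_pos.mpr hab) hcon
          linarith
        exact Real.exp_le_exp.mp (by linarith)
      -- sort lexicographically
      let f : Fin q → Lex (ℝ × ℝ) := fun i => toLex (-w i, -X (ι i))
      let σ : Equiv.Perm (Fin q) := Tuple.sort f
      have hσ : Monotone (f ∘ σ) := Tuple.monotone_sort f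
      have hwσ : Antitone (w ∘ σ) := by
        intro i j hij
        have := hσ hij
        simp only [Function.comp, f, Prod.Lex.toLex_le_toLex] at this
        rcases this with h1 | h1
        · simp only [Function.comp]; linarith
        · simp only [Function.comp]; linarith [h1.1]
      have hwσ' : w ∘ σ = w := by
        have h1 : Antitone (w ∘ (1 : Equiv.Perm (Fin q))) := by
          simpa using (hG1 w hw).1
        have := Tuple.unique_antitone hwσ h1
        simpa using this
      have hXσ : Antitone (fun i => X (ι (σ i))) := by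
        intro i j hij
        have := hσ hij
        simp only [Function.comp, f, Prod.Lex.toLex_le_toLex] at this
        rcases this with h1 | h1
        · exact hswap _ _ (by linarith)
        · linarith [h1.2]
      have hmaxσ : ∀ w' ∈ W, obj (fun i => X (ι (σ i))) h w' ≤ obj (fun i => X (ι (σ i))) h w := by
        intro w' hw'
        have hinj : Function.Injective (fun i => ι (σ i)) := hι.comp (Equiv.injective _)
        have h1 := hmax' _ hinj w' hw'
        unfold obj
        have h2 : ∑ i, w i * Real.exp (X (ι i)) = ∑ i, w i * Real.exp (X (ι (σ i))) := by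
          rw [← Equiv.sum_comp σ (fun i => w i * Real.exp (X (ι i)))]
          refine Finset.sum_congr rfl fun i _ => ?_
          have : w (σ i) = w i := congrFun hwσ' i
          rw [this]
        rw [← h2]
        exact h1
      have hcomp := hG5 (fun i => X (ι (σ i))) hXσ (fun i => (hdom (σ i)).1)
        (fun i => (hdom (σ i)).2) w hw hmaxσ ((fun i => ι (σ i)), ⟨d, hd⟩)
      have e1 : aff (v ((fun i => ι (σ i)), ⟨d, hd⟩)) ((0 : J → ℝ) ((fun i => ι (σ i)), ⟨d, hd⟩)) w
          = ∑ j, pushv ι w j * d j := by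
        rw [pushv_dot]
        simp only [aff, v, Pi.zero_apply, add_zero]
        rw [← Equiv.sum_comp σ (fun i => w i * d (ι i))]
        refine Finset.sum_congr rfl fun i _ => ?_
        have : w (σ i) = w i := congrFun hwσ' i
        rw [this, mul_comm]
      have e2 : aff (v ((fun i => ι (σ i)), ⟨d, hd⟩)) ((0 : J → ℝ) ((fun i => ι (σ i)), ⟨d, hd⟩))
          (fun i => X (ι (σ i))) = ∑ i, X (ι i) * d (ι i) := by
        simp only [aff, v, Pi.zero_apply, add_zero]
        rw [← Equiv.sum_comp σ (fun i => X (ι i) * d (ι i))]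
        refine Finset.sum_congr rfl fun i _ => ?_
        rw [mul_comm]
      rw [e1, e2] at hcomp
      exact hcomp.1 hpos

end Pool.Agent.Lib_helper43
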