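import Pool.Agent.Lib_helper43.Region
import Pool.Agent.Lib_helper43.Drift
import Pool.Agent.Lib_helper43.Invar

set_option autoImplicit false

namespace Pool.Agent.Lib_helper43

open Finset

lemma monomial_eq {n : ℕ} (x : Fin n → ℝ) (hx : ∀ i, 0 < x i) (s : Fin n → ℝ) :
    ∏ i, (x i) ^ (s i) = Real.exp (∑ i, Real.log (x i) * s i) := by
  rw [Real.exp_sum]
  refine Finset.prod_congr rfl fun i _ => ?_
  rw [Real.rpow_def_of_pos (hx i)]

/-- Uniform confinement: for every `R` there is `L` such that every solution of every weakly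
reversible system on `E` with rates between `ε` and `1 / ε`, starting in the log-box of size `R`,
stays in the log-box of size `L`. -/
theorem confinement (n : ℕ) (E : Finset ((Fin n → ℝ) × (Fin n → ℝ)))
    (hrev : ∀ e ∈ E, Relation.ReflTransGen (fun u v => (u, v) ∈ E) e.2 e.1)
    (ε : ℝ) (hε : 0 < ε) (R : ℝ) :
    ∃ L : ℝ, ∀ (k : (Fin n → ℝ) × (Fin n → ℝ) → ℝ → ℝ),
      ∀ (I : Set ℝ), I.OrdConnected → (0 : ℝ) ∈ I →
      (∀ e ∈ E, ∀ t ∈ I, ε ≤ k e t ∧ k e t ≤ 1 / ε) →
      ∀ (x : ℝ → Fin n → ℝ),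
        (∀ t ∈ I, ∀ i : Fin n, 0 < x t i) →
        (∀ t ∈ I, HasDerivWithinAt x
            (∑ e ∈ E, (k e t * ∏ i : Fin n, (x t i) ^ (e.1 i)) • (e.2 - e.1)) I t) →
        (∀ i, |Real.log (x 0 i)| ≤ R) →
        ∀ t ∈ I, 0 ≤ t → ∀ i : Fin n, |Real.log (x t i)| ≤ L := by
  classical
  rcases Nat.eq_zero_or_pos n with hn | hn
  · subst hn
    refine ⟨0, ?_⟩
    intro _ _ _ _ _ _ _ _ _ _ _ _ i
    exact Fin.elim0 i
  set D : Finset (Fin n → ℝ) := (E ×ˢ E).image (fun p => p.2.1 - p.1.1) with hD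
  set M : ℝ := (E.card : ℝ) / ε ^ 2 with hM
  have hMexp : (E.card : ℝ) / ε ^ 2 ≤ Real.exp M := by
    have := Real.add_one_le_exp M
    linarith
  obtain ⟨F, δ, L, hδ, hF1, hF2, hF3⟩ := exists_region n hn D M R
  refine ⟨L, ?_⟩
  intro k I hI h0 hk x hx hd hstart
  have hval : ∀ (p : (Fin n → ℝ) × ℝ), ∀ t ∈ I,
      val p (fun i => Real.log (x t i)) = (∑ j, p.1 j * x t j) - p.2 := by
    intro p t ht
    simp only [val]
    congr 1
    refine Finset.sum_congr rfl fun j _ => ?_
    rw [Real.exp_log (hx t ht j)]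
  have hmain := max_invariance (ι := F) I hI h0
    (fun p t => (∑ j, (p : (Fin n → ℝ) × ℝ).1 j * x t j) - (p : (Fin n → ℝ) × ℝ).2)
    (fun p t => ∑ j, (p : (Fin n → ℝ) × ℝ).1 j *
      (∑ e ∈ E, (k e t * ∏ i : Fin n, (x t i) ^ (e.1 i)) • (e.2 - e.1)) j)
    (by
      intro p t ht
      apply HasDerivWithinAt.sub_const
      apply HasDerivWithinAt.fun_sum
      intro j _
      have := (hasDerivWithinAt_pi.mp (hd t ht)) j
      exact this.const_mul _)
    δ hδ
    (by
      intro p
      have := hF1 (fun i => Real.log (x 0 i)) hstart p.1 p.2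
      rw [hval _ 0 h0] at this
      exact this)
    (by
      intro t ht h0t hall p hp0 hpmax
      have hact := hF3 (fun i => Real.log (x t i))
        (fun p' hp' => by rw [hval _ t ht]; exact hall ⟨p', hp'⟩)
        p.1 p.2 (by rw [hval _ t ht]; exact hp0)
        (fun p' hp' => by rw [hval _ t ht, hval _ t ht]; exact hpmax ⟨p', hp'⟩)
      have hdrift := drift_nonpos E (fun s : Fin n → ℝ => ∑ j, (p : (Fin n → ℝ) × ℝ).1 j * s j)
        (fun s => ∏ i, (x t i) ^ (s i)) (fun e => k e t) ε M hε hrev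
        (fun e he => hk e he t ht)
        (fun e _ => Finset.prod_pos fun i _ => Real.rpow_pos_of_pos (hx t ht i) _)
        hMexp
        (by
          intro e he e' he' hlt
          have hd' : e'.1 - e.1 ∈ D := by
            rw [hD]
            exact Finset.mem_image.mpr ⟨(e, e'), Finset.mem_product.mpr ⟨he, he'⟩, rfl⟩
          have h1 := hact _ hd' (by
            have : ∑ j, (p : (Fin n → ℝ) × ℝ).1 j * (e'.1 - e.1) j =
              (∑ j, (p : (Fin n → ℝ) × ℝ).1 j * e'.1 j) - ∑ j, (p : (Fin n → ℝ) × ℝ).1 j * e.1 j := by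
              rw [← Finset.sum_sub_distrib]
              refine Finset.sum_congr rfl fun j _ => ?_
              simp [mul_sub]
            rw [this]; linarith)
          rw [monomial_eq _ (hx t ht), monomial_eq _ (hx t ht), ← Real.exp_add]
          apply Real.exp_le_exp.mpr
          have h2 : ∑ j, Real.log (x t j) * (e'.1 - e.1) j =
              (∑ i, Real.log (x t i) * e'.1 i) - ∑ i, Real.log (x t i) * e.1 i := by
            rw [← Finset.sum_sub_distrib]
            refine Finset.sum_congr rfl fun j _ => ?_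
            simp [mul_sub]
          rw [h2] at h1
          linarith)
      refine le_of_eq_of_le ?_ hdrift
      simp only [Finset.sum_apply, Pi.smul_apply, Pi.sub_apply, smul_eq_mul, Finset.mul_sum]
      rw [Finset.sum_comm]
      refine Finset.sum_congr rfl fun e _ => ?_
      rw [← Finset.sum_sub_distrib, Finset.mul_sum]
      refine Finset.sum_congr rfl fun j _ => ?_
      ring)
  intro t ht h0t i
  apply hF2 (fun i => Real.log (x t i))
  intro p hp
  rw [hval _ t ht]
  exact hmain t ht h0t ⟨p, hp⟩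

end Pool.Agent.Lib_helper43
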