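import Pool.Agent.Lib_helper43.Kind

set_option autoImplicit false

namespace Pool.Agent.Lib_helper43

open Finset

/-- Growth constants of the nested construction. -/
noncomputable def gam (A C : ℝ) : ℕ → ℝ
  | 0 => A + 1
  | m + 1 => (A + 1) * (1 + C * gam A C m)

lemma gam_pos (A C : ℝ) (hA : 1 ≤ A) (hC : 1 ≤ C) : ∀ m, A + 1 ≤ gam A C m
  | 0 => le_refl _
  | m + 1 => by
    have ih := gam_pos A C hA hC m
    simp only [gam]
    have : 1 ≤ 1 + C * gam A C m := by nlinarith
    nlinarith

lemma gam_mono (A C : ℝ) (hA : 1 ≤ A) (hC : 1 ≤ C) : Monotone (gam A C) := by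
  apply monotone_nat_of_le_succ
  intro m
  have h := gam_pos A C hA hC m
  simp only [gam]
  have h1 : gam A C m ≤ C * gam A C m := by nlinarith
  nlinarith

/-- value of an affine function at `exp X` -/
noncomputable def val {n : ℕ} (p : (Fin n → ℝ) × ℝ) (X : Fin n → ℝ) : ℝ :=
  (∑ j, p.1 j * Real.exp (X j)) - p.2

theorem exists_region (n : ℕ) (hn : 0 < n) (D : Finset (Fin n → ℝ)) (M R : ℝ) :
    ∃ (F : Finset ((Fin n → ℝ) × ℝ)) (δ L : ℝ), 0 < δ ∧
      (∀ X : Fin n → ℝ, (∀ i, |X i| ≤ R) → ∀ p ∈ F, val p X ≤ 0) ∧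
      (∀ X : Fin n → ℝ, (∀ p ∈ F, val p X ≤ 0) → ∀ i, |X i| ≤ L) ∧
      (∀ X : Fin n → ℝ, (∀ p ∈ F, val p X ≤ δ) → ∀ p ∈ F, 0 ≤ val p X →
        (∀ p' ∈ F, val p' X ≤ val p X) → ∀ d ∈ D, 0 < ∑ j, p.1 j * d j → M ≤ ∑ j, X j * d j) := by
  classical
  choose Ak hAk1 hAk using fun q => exists_kind n q D
  -- constants
  set A : ℝ := 2 + ∑ q ∈ Finset.range (n + 1), Ak q with hAdef
  have hAkA : ∀ q, q ≤ n → Ak q ≤ A := by
    intro q hq
    have : Ak q ≤ ∑ q ∈ Finset.range (n + 1), Ak q :=
      Finset.single_le_sum (f := Ak) (fun i _ => by linarith [hAk1 i])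
        (Finset.mem_range.mpr (by omega))
    linarith
  have hA2 : 2 ≤ A := by
    have : 0 ≤ ∑ q ∈ Finset.range (n + 1), Ak q :=
      Finset.sum_nonneg fun i _ => by linarith [hAk1 i]
    linarith
  obtain ⟨C, hC1, hC⟩ : ∃ C : ℝ, 1 ≤ C ∧ ∀ d ∈ D, ∑ j, |d j| ≤ C := by
    refine ⟨1 + ∑ d ∈ D, ∑ j, |d j|, ?_, ?_⟩
    · have : 0 ≤ ∑ d ∈ D, ∑ j, |d j| :=
        Finset.sum_nonneg fun d _ => Finset.sum_nonneg fun j _ => abs_nonneg _
      linarith
    · intro d hd
      have : ∑ j, |d j| ≤ ∑ d ∈ D, ∑ j, |d j| :=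
        Finset.single_le_sum (f := fun d : Fin n → ℝ => ∑ j, |d j|)
          (fun i _ => Finset.sum_nonneg fun j _ => abs_nonneg _) hd
      linarith
  set Γ : ℝ := gam A C n with hΓ
  have hΓpos : A + 1 ≤ Γ := gam_pos A C (by linarith) hC1 n
  set z : ℝ := max (max M R) (max 3 (2 * (16 * ((n : ℝ) + 1) * Γ + 4))) with hz
  have hzM : M ≤ z := le_trans (le_max_left _ _) (le_max_left _ _)
  have hzR : R ≤ z := le_trans (le_max_right _ _) (le_max_left _ _)
  have hz3 : 3 ≤ z := le_trans (le_max_left _ _) (le_max_right _ _)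
  have hzΓ : 2 * (16 * ((n : ℝ) + 1) * Γ + 4) ≤ z := le_trans (le_max_right _ _) (le_max_right _ _)
  have hn0 : (0 : ℝ) ≤ n := Nat.cast_nonneg n
  have hn1 : (1 : ℝ) ≤ n := by exact_mod_cast hn
  set B : ℝ := 4 * (Γ * z) with hB
  have hΓz : 0 < Γ * z := by
    have : 0 < Γ := by linarith
    positivity
  have hexpz : 4 * ((n : ℝ) + 1) * B + 4 ≤ Real.exp z := by
    have h1 := Real.quadratic_le_exp_of_nonneg (by linarith : (0 : ℝ) ≤ z)
    have h2 : 4 * ((n : ℝ) + 1) * B = 16 * ((n : ℝ) + 1) * Γ * z := by rw [hB]; ring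
    rw [h2]
    nlinarith
  have hexp : ∀ ω : ℝ, z ≤ ω → 4 * ((n : ℝ) + 1) * B + 4 ≤ Real.exp ω := fun ω h =>
    le_trans hexpz (Real.exp_le_exp.mpr h)
  have hYn : ∀ m, m ≤ n → gam A C m * z ≤ Γ * z := by
    intro m hm
    exact mul_le_mul_of_nonneg_right (gam_mono A C (by linarith) hC1 hm) (by linarith)
  -- scale parameters
  set om : ℕ → ℝ := fun m => (1 + C * gam A C m) * z with hom
  set cc : ℕ → ℝ := fun m => A * om m with hcc
  have hgp : ∀ m, A + 1 ≤ gam A C m := gam_pos A C (by linarith) hC1
  have homz : ∀ m, z ≤ om m := by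
    intro m
    have h1 := hgp m
    simp only [hom]
    have h2 : 0 ≤ C * gam A C m := mul_nonneg (by linarith) (by linarith)
    nlinarith
  have homeq : ∀ m, om m = z + C * (gam A C m * z) := by
    intro m; simp only [hom]; ring
  have hYsucc : ∀ m, gam A C (m + 1) * z = cc m + om m := by
    intro m; simp only [hcc, hom, gam]; ring
  have hccom : ∀ m, om m ≤ cc m := by
    intro m
    have := homz m
    simp only [hcc]
    nlinarith
  have hccY : ∀ m, m < n → cc m + om m ≤ Γ * z := by
    intro m hm
    rw [← hYsucc]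
    exact hYn (m + 1) hm
  -- the lower families
  have hlow : ∀ m, m < n → ∃ F : Finset ((Fin n → ℝ) × ℝ),
        (∀ (ι : Fin (n - m) → Fin n), Function.Injective ι → ∀ k : ℕ, ∃ p ∈ F,
          p.1 = pushv ι (topk (-(cc m)) B k) ∧ p.2 ≤ Real.exp (-(cc m) - 2 * om m) ∧ (k = 0 → p.2 = 0)) ∧
        (∀ p ∈ F, 0 ≤ p.2 ∧ ∃ (ι : Fin (n - m) → Fin n) (w : Fin (n - m) → ℝ), Function.Injective ι ∧
          p.1 = pushv ι w ∧ (∀ i, -B ≤ w i ∧ w i ≤ -(cc m)) ∧
          (∀ X : Fin n → ℝ, (∀ p' ∈ F, (∑ j, p'.1 j * Real.exp (X j)) - p'.2 ≤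
              (∑ j, p.1 j * Real.exp (X j)) - p.2) →
            (-(cc m) < 0 → ∀ j, j ∉ Set.range ι → ∀ i, X (ι i) ≤ X j) ∧
            ((∀ i, -B / 2 ≤ X (ι i) ∧ X (ι i) ≤ -(cc m) + om m) → ∀ d ∈ D, 0 < ∑ j, p.1 j * d j →
              om m ≤ ∑ i, X (ι i) * d (ι i)))) := by
    intro m hm
    have h1 := homz m
    have h2 := hccom m
    have h3 := hccY m hm
    have h4 : Ak (n - m) * om m ≤ cc m := by
      simp only [hcc]
      exact mul_le_mul_of_nonneg_right (hAkA _ (by omega)) (by linarith)
    have h5 : 0 ≤ om m := by linarith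
    refine hAk (n - m) (-(cc m)) (om m) B (by linarith) (hexp _ h1) (by omega) (by linarith)
      (by linarith) (by linarith) ?_
    rw [abs_neg, abs_of_nonneg (by linarith)]
    exact h4
  choose! Fl hFl1 hFl2 using hlow
  -- the upper family
  set K : ℝ := A * z with hK
  have hKz : 2 * z ≤ K := by simp only [hK]; nlinarith
  have hKΓ : K + z ≤ Γ * z := by simp only [hK]; nlinarith
  have hKB : K ≤ B := by linarith
  obtain ⟨Fu, hFu1, hFu2⟩ := hAk n K z B (by linarith) hexpz (le_refl n)
    (by
      have := mul_le_mul_of_nonneg_right (hAkA n (le_refl n)) (by linarith : (0 : ℝ) ≤ z)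
      linarith)
    (by linarith) hKB
    (by
      rw [abs_of_nonneg (by linarith)]
      exact mul_le_mul_of_nonneg_right (hAkA n (le_refl n)) (by linarith))
  -- the total family
  set F : Finset ((Fin n → ℝ) × ℝ) :=
    (Fu.image (fun p => (p.1, p.2 + Real.exp K))) ∪
    ((Finset.range n).biUnion (fun m => (Fl m).image (fun p => (p.1, p.2 - Real.exp (-(cc m)))))) with hF
  have hmemU : ∀ p ∈ Fu, (p.1, p.2 + Real.exp K) ∈ F := fun p hp =>
    Finset.mem_union_left _ (Finset.mem_image_of_mem _ hp)
  have hmemL : ∀ m, m < n → ∀ p ∈ Fl m, (p.1, p.2 - Real.exp (-(cc m))) ∈ F := fun m hm p hp =>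
    Finset.mem_union_right _ (Finset.mem_biUnion.mpr ⟨m, Finset.mem_range.mpr hm,
      Finset.mem_image_of_mem _ hp⟩)
  have hcases : ∀ p ∈ F, (∃ p0 ∈ Fu, p = (p0.1, p0.2 + Real.exp K)) ∨
      (∃ m, m < n ∧ ∃ p0 ∈ Fl m, p = (p0.1, p0.2 - Real.exp (-(cc m)))) := by
    intro p hp
    rcases Finset.mem_union.mp hp with hp | hp
    · obtain ⟨p0, hp0, rfl⟩ := Finset.mem_image.mp hp
      exact Or.inl ⟨p0, hp0, rfl⟩
    · obtain ⟨m, hm, hp⟩ := Finset.mem_biUnion.mp hp
      obtain ⟨p0, hp0, rfl⟩ := Finset.mem_image.mp hp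
      exact Or.inr ⟨m, Finset.mem_range.mp hm, p0, hp0, rfl⟩
  set δ : ℝ := Real.exp (-(Γ * z)) / 2 with hδ
  have hδ0 : 0 < δ := by positivity
  have hδ1 : δ ≤ 1 := by
    have : Real.exp (-(Γ * z)) ≤ 1 := by
      rw [Real.exp_le_one_iff]; linarith
    linarith
  -- Fact 1
  have hF1 : ∀ X : Fin n → ℝ, (∀ p ∈ F, val p X ≤ δ) → ∀ m, m < n → ∀ ι : Fin (n - m) → Fin n,
      Function.Injective ι → ∃ i, -(cc m + om m) ≤ X (ι i) := by
    intro X hX m hm ι hι
    by_contra hcon
    push Not at hcon
    obtain ⟨p, hp, hp1, _, hp3⟩ := hFl1 m hm ι hι 0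
    have h1 := hX _ (hmemL m hm p hp)
    have hp3' := hp3 rfl
    simp only [val] at h1
    rw [hp1, hp3', pushv_dot ι _ (fun j => Real.exp (X j))] at h1
    have h2 : -(B * (n * Real.exp (-(cc m + om m)))) ≤
        ∑ i, (topk (-(cc m)) B 0 : Fin (n - m) → ℝ) i * Real.exp (X (ι i)) := by
      have h3 : ∀ i ∈ (Finset.univ : Finset (Fin (n - m))),
          -(B * Real.exp (-(cc m + om m))) ≤
            (topk (-(cc m)) B 0 : Fin (n - m) → ℝ) i * Real.exp (X (ι i)) := by
        intro i _
        have h4 : Real.exp (X (ι i)) ≤ Real.exp (-(cc m + om m)) :=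
          Real.exp_le_exp.mpr (hcon i).le
        simp only [topk, not_lt_zero, if_false]
        nlinarith
      have h5 := Finset.sum_le_sum h3
      rw [Finset.sum_const, Finset.card_univ, Fintype.card_fin, nsmul_eq_mul] at h5
      refine le_trans ?_ h5
      have h6 : ((n - m : ℕ) : ℝ) ≤ n := by exact_mod_cast Nat.sub_le n m
      have h7 : 0 ≤ B * Real.exp (-(cc m + om m)) := by positivity
      nlinarith
    have h8 : Real.exp (-(Γ * z)) ≤ Real.exp (-(cc m)) := by
      apply Real.exp_le_exp.mpr
      have := hccY m hm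
      have := homz m
      linarith
    have h9 : Real.exp (-(cc m + om m)) = Real.exp (-(cc m)) * Real.exp (-(om m)) := by
      rw [← Real.exp_add]; congr 1; ring
    have h10 : B * (n * Real.exp (-(om m))) ≤ 1 / 4 := by
      have h11 := hexp (om m) (homz m)
      have h12 : Real.exp (-(om m)) * Real.exp (om m) = 1 := by
        rw [← Real.exp_add]; simp
      have h13 : 0 < Real.exp (-(om m)) := Real.exp_pos _
      have h14 : 4 * (B * n) * Real.exp (-(om m)) ≤ Real.exp (om m) * Real.exp (-(om m)) := by
        apply mul_le_mul_of_nonneg_right _ h13.le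
        nlinarith
      nlinarith
    have h15 : 0 < Real.exp (-(cc m)) := Real.exp_pos _
    rw [h9] at h2
    have h16 : B * (n * (Real.exp (-(cc m)) * Real.exp (-(om m)))) ≤ 1 / 4 * Real.exp (-(cc m)) := by
      have : B * (n * (Real.exp (-(cc m)) * Real.exp (-(om m)))) =
        (B * (n * Real.exp (-(om m)))) * Real.exp (-(cc m)) := by ring
      rw [this]
      exact mul_le_mul_of_nonneg_right h10 h15.le
    linarith
  -- Fact 2
  have hF2 : ∀ X : Fin n → ℝ, (∀ p ∈ F, val p X ≤ δ) → ∀ j, X j ≤ K := by
    intro X hX j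
    let σ : Equiv.Perm (Fin n) := Tuple.sort (fun i => -X i)
    have hσ : Monotone ((fun i => -X i) ∘ σ) := Tuple.monotone_sort _
    have hanti : Antitone (fun i => X (σ i)) := by
      intro a b hab
      have := hσ hab
      simp only [Function.comp] at this
      linarith
    let i0 : Fin n := ⟨0, hn⟩
    have hx0 : 0 < Real.exp (X (σ i0)) := Real.exp_pos _
    obtain ⟨k, hk⟩ := exists_initial
      (fun i : Fin n => Real.exp (X (σ i0)) * K / (2 * B * n) ≤ Real.exp (X (σ i)))
      (by
        intro a b hab hb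
        exact le_trans hb (Real.exp_le_exp.mpr (hanti hab)))
    obtain ⟨p, hp, hp1, hp2, _⟩ := hFu1 σ σ.injective k
    have h1 := hX _ (hmemU p hp)
    simp only [val] at h1
    rw [hp1, pushv_dot (σ : Fin n → Fin n) _ (fun j => Real.exp (X j))] at h1
    have hB0 : 0 < B := by linarith
    have hthr : Real.exp (X (σ i0)) * K / (2 * B * n) ≤ Real.exp (X (σ i0)) := by
      rw [div_le_iff₀ (by positivity)]
      apply mul_le_mul_of_nonneg_left _ hx0.le
      nlinarith
    have hk0 : ((i0 : Fin n) : ℕ) < k := (hk i0).mpr hthr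
    have h2 : K * Real.exp (X (σ i0)) / 2 ≤
        ∑ i, (topk K B k : Fin n → ℝ) i * Real.exp (X (σ i)) := by
      rw [← Finset.add_sum_erase _ _ (Finset.mem_univ i0)]
      have h3 : (topk K B k : Fin n → ℝ) i0 = K := by simp only [topk, hk0, if_true]
      rw [h3]
      have h4 : ∀ i ∈ Finset.univ.erase i0, -(B * (Real.exp (X (σ i0)) * K / (2 * B * n))) ≤
          (topk K B k : Fin n → ℝ) i * Real.exp (X (σ i)) := by
        intro i _
        have hxi : 0 < Real.exp (X (σ i)) := Real.exp_pos _
        have hthr0 : 0 ≤ B * (Real.exp (X (σ i0)) * K / (2 * B * n)) := by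
          have : 0 ≤ K := by linarith
          positivity
        by_cases hik : (i : ℕ) < k
        · simp only [topk, hik, if_true]
          have : 0 ≤ K * Real.exp (X (σ i)) := mul_nonneg (by linarith) hxi.le
          linarith
        · simp only [topk, hik, if_false]
          have : Real.exp (X (σ i)) < Real.exp (X (σ i0)) * K / (2 * B * n) := by
            by_contra hcon
            push Not at hcon
            exact hik ((hk i).mpr hcon)
          nlinarith
      have h5 := Finset.sum_le_sum h4
      rw [Finset.sum_const, nsmul_eq_mul] at h5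
      have h6 : ((Finset.univ.erase i0).card : ℝ) ≤ n := by
        have : (Finset.univ.erase i0).card ≤ n := by
          rw [Finset.card_erase_of_mem (Finset.mem_univ _), Finset.card_univ, Fintype.card_fin]
          exact Nat.sub_le n 1
        exact_mod_cast this
      have h7 : (n : ℝ) * (B * (Real.exp (X (σ i0)) * K / (2 * B * n))) = K * Real.exp (X (σ i0)) / 2 := by
        field_simp
      have h8 : 0 ≤ B * (Real.exp (X (σ i0)) * K / (2 * B * n)) := by
        have : 0 ≤ K := by linarith
        positivity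
      nlinarith
    have h9 : Real.exp (K - 2 * z) ≤ Real.exp K := Real.exp_le_exp.mpr (by linarith)
    have h10 : 1 ≤ Real.exp K := Real.one_le_exp (by linarith)
    have h11 : K * Real.exp (X (σ i0)) / 2 ≤ 3 * Real.exp K := by linarith
    have h12 : Real.exp (X (σ i0)) ≤ Real.exp K := by nlinarith
    have h13 : X (σ i0) ≤ K := Real.exp_le_exp.mp h12
    have h14 : X j ≤ X (σ i0) := by
      have := hanti (show i0 ≤ σ.symm j from by
        change (⟨0, hn⟩ : Fin n) ≤ σ.symm j
        exact Fin.mk_le_of_le_val (Nat.zero_le _))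
      simpa using this
    linarith
  -- Fact 3
  have hF3 : ∀ X : Fin n → ℝ, (∀ p ∈ F, val p X ≤ δ) → ∀ j, -(Γ * z) ≤ X j := by
    intro X hX j
    have hm : n - 1 < n := by omega
    have hsub : ∀ a b : Fin (n - (n - 1)), a = b := by
      intro a b
      have ha := a.2
      have hb := b.2
      ext
      omega
    obtain ⟨i, hi⟩ := hF1 X hX (n - 1) hm (fun _ => j) (fun a b _ => hsub a b)
    have := hccY (n - 1) hm
    linarith
  refine ⟨F, δ, Γ * z, hδ0, ?_, ?_, ?_⟩
  · -- initial condition
    intro X hX p hp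
    rcases hcases p hp with ⟨p0, hp0, rfl⟩ | ⟨m, hm, p0, hp0, rfl⟩
    · obtain ⟨ha, ι, w, hι, hw1, hw2, _⟩ := hFu2 p0 hp0
      simp only [val]
      rw [hw1, pushv_dot ι w (fun j => Real.exp (X j))]
      have h1 : ∀ i ∈ (Finset.univ : Finset (Fin n)), w i * Real.exp (X (ι i)) ≤ K * Real.exp z := by
        intro i _
        have h2 := (hw2 i).2
        have h3 : Real.exp (X (ι i)) ≤ Real.exp z :=
          Real.exp_le_exp.mpr (by have := (abs_le.mp (hX (ι i))).2; linarith)
        calc w i * Real.exp (X (ι i)) ≤ K * Real.exp (X (ι i)) :=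
              mul_le_mul_of_nonneg_right h2 (Real.exp_pos _).le
          _ ≤ K * Real.exp z := mul_le_mul_of_nonneg_left h3 (by linarith)
      have h4 := Finset.sum_le_sum h1
      rw [Finset.sum_const, Finset.card_univ, Fintype.card_fin, nsmul_eq_mul] at h4
      have h5 : (n : ℝ) * (K * Real.exp z) ≤ Real.exp K := by
        have h6 : Real.exp z * Real.exp z ≤ Real.exp K := by
          rw [← Real.exp_add]; exact Real.exp_le_exp.mpr (by linarith)
        have h7 : (n : ℝ) * K ≤ Real.exp z := by nlinarith
        calc (n : ℝ) * (K * Real.exp z) = (n * K) * Real.exp z := by ring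
          _ ≤ Real.exp z * Real.exp z := mul_le_mul_of_nonneg_right h7 (Real.exp_pos _).le
          _ ≤ Real.exp K := h6
      linarith
    · obtain ⟨ha, ι, w, hι, hw1, hw2, _⟩ := hFl2 m hm p0 hp0
      simp only [val]
      rw [hw1, pushv_dot ι w (fun j => Real.exp (X j))]
      let i0 : Fin (n - m) := ⟨0, by omega⟩
      have hcpos : 1 ≤ cc m := by
        have := homz m
        have := hccom m
        linarith
      have h1 : ∑ i, w i * Real.exp (X (ι i)) ≤ w i0 * Real.exp (X (ι i0)) := by
        rw [← Finset.add_sum_erase _ _ (Finset.mem_univ i0)]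
        have : ∑ i ∈ Finset.univ.erase i0, w i * Real.exp (X (ι i)) ≤ 0 := by
          apply Finset.sum_nonpos
          intro i _
          exact mul_nonpos_of_nonpos_of_nonneg (by linarith [(hw2 i).2]) (Real.exp_pos _).le
        linarith
      have h2 : w i0 * Real.exp (X (ι i0)) ≤ -(cc m) * Real.exp (-z) := by
        have h3 : Real.exp (-z) ≤ Real.exp (X (ι i0)) :=
          Real.exp_le_exp.mpr (by have := (abs_le.mp (hX (ι i0))).1; linarith)
        have h4 := (hw2 i0).2
        calc w i0 * Real.exp (X (ι i0)) ≤ -(cc m) * Real.exp (X (ι i0)) :=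
              mul_le_mul_of_nonneg_right h4 (Real.exp_pos _).le
          _ ≤ -(cc m) * Real.exp (-z) := by
              apply mul_le_mul_of_nonpos_left h3 (by linarith)
      have h5 : Real.exp (-(cc m)) ≤ Real.exp (-z) := by
        apply Real.exp_le_exp.mpr
        have := homz m
        have := hccom m
        linarith
      have h6 : 0 < Real.exp (-z) := Real.exp_pos _
      nlinarith
  · intro X hX i
    have hX' : ∀ p ∈ F, val p X ≤ δ := fun p hp => le_trans (hX p hp) hδ0.le
    rw [abs_le]
    refine ⟨hF3 X hX' i, ?_⟩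
    have := hF2 X hX' i
    linarith
  · intro X hX p hp h0 hmax d hd hpos
    have hX2 := hF2 X hX
    have hX3 := hF3 X hX
    rcases hcases p hp with ⟨p0, hp0, rfl⟩ | ⟨m, hm, p0, hp0, rfl⟩
    · obtain ⟨ha, ι, w, hι, hw1, hw2, hcomp⟩ := hFu2 p0 hp0
      have hmax' : ∀ p' ∈ Fu, (∑ j, p'.1 j * Real.exp (X j)) - p'.2 ≤
          (∑ j, p0.1 j * Real.exp (X j)) - p0.2 := by
        intro p' hp'
        have := hmax _ (hmemU p' hp')
        simp only [val] at this
        linarith
      have h1 := (hcomp X hmax').2 (fun i => ⟨by have := hX3 (ι i); linarith,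
        by have := hX2 (ι i); linarith⟩) d hd hpos
      have hbij : Function.Bijective ι := Finite.injective_iff_bijective.mp hι
      have h2 : ∑ i, X (ι i) * d (ι i) = ∑ j, X j * d j :=
        Function.Bijective.sum_comp hbij (fun j => X j * d j)
      rw [h2] at h1
      linarith
    · obtain ⟨ha, ι, w, hι, hw1, hw2, hcomp⟩ := hFl2 m hm p0 hp0
      have hmax' : ∀ p' ∈ Fl m, (∑ j, p'.1 j * Real.exp (X j)) - p'.2 ≤
          (∑ j, p0.1 j * Real.exp (X j)) - p0.2 := by
        intro p' hp'
        have := hmax _ (hmemL m hm p' hp')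
        simp only [val] at this
        linarith
      have homm := homz m
      have hccm := hccom m
      have hccm1 : 1 ≤ cc m := by linarith
      have hXι : ∀ i, X (ι i) ≤ -(cc m) := by
        intro i
        simp only [val] at h0
        rw [hw1, pushv_dot ι w (fun j => Real.exp (X j))] at h0
        have h1 : ∑ i, w i * Real.exp (X (ι i)) ≤ w i * Real.exp (X (ι i)) := by
          rw [← Finset.add_sum_erase _ _ (Finset.mem_univ i)]
          have : ∑ i ∈ Finset.univ.erase i, w i * Real.exp (X (ι i)) ≤ 0 := by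
            apply Finset.sum_nonpos
            intro i' _
            exact mul_nonpos_of_nonpos_of_nonneg (by linarith [(hw2 i').2]) (Real.exp_pos _).le
          linarith
        have hxi : 0 < Real.exp (X (ι i)) := Real.exp_pos _
        have h2 : w i * Real.exp (X (ι i)) ≤ -(cc m) * Real.exp (X (ι i)) :=
          mul_le_mul_of_nonneg_right (hw2 i).2 hxi.le
        have h3 : Real.exp (X (ι i)) ≤ Real.exp (-(cc m)) := by nlinarith
        exact Real.exp_le_exp.mp h3
      have h1 := (hcomp X hmax').2 (fun i => ⟨by have := hX3 (ι i); linarith,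
        by have := hXι i; linarith⟩) d hd hpos
      have h2 := (hcomp X hmax').1 (by linarith)
      have hout : ∀ j, j ∉ Set.range ι → |X j| ≤ gam A C m * z := by
        intro j hj
        rw [abs_le]
        constructor
        · rcases m with _ | m'
          · exfalso
            have hbij : Function.Bijective ι := by
              have : Function.Injective ι := hι
              exact Finite.injective_iff_bijective.mp this
            exact hj (hbij.2 j)
          · have hm' : m' < n := by omega
            let ι' : Fin (n - m') → Fin n := fun i =>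
              if h : (i : ℕ) < n - (m' + 1) then ι ⟨i, h⟩ else j
            have hinj : Function.Injective ι' := by
              intro a b hab
              simp only [ι'] at hab
              by_cases ha' : (a : ℕ) < n - (m' + 1)
              · by_cases hb' : (b : ℕ) < n - (m' + 1)
                · rw [dif_pos ha', dif_pos hb'] at hab
                  have := hι hab
                  simp only [Fin.mk.injEq] at this
                  exact Fin.ext this
                · rw [dif_pos ha', dif_neg hb'] at hab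
                  exact absurd ⟨_, hab⟩ hj
              · by_cases hb' : (b : ℕ) < n - (m' + 1)
                · rw [dif_neg ha', dif_pos hb'] at hab
                  exact absurd ⟨_, hab.symm⟩ hj
                · have ha2 := a.2
                  have hb2 := b.2
                  apply Fin.ext
                  omega
            obtain ⟨i, hi⟩ := hF1 X hX m' hm' ι' hinj
            rw [hYsucc]
            simp only [ι'] at hi
            by_cases hi' : (i : ℕ) < n - (m' + 1)
            · rw [dif_pos hi'] at hi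
              have := h2 j hj ⟨i, hi'⟩
              linarith
            · rw [dif_neg hi'] at hi
              exact hi
        · have h3 := hX2 j
          have h4 : (A + 1) * z ≤ gam A C m * z :=
            mul_le_mul_of_nonneg_right (hgp m) (by linarith)
          have h5 : K ≤ (A + 1) * z := by simp only [hK]; nlinarith
          linarith
      -- split the sum
      have hsplit : ∑ j, X j * d j = ∑ i, X (ι i) * d (ι i) +
          ∑ j ∈ Finset.univ \ (Finset.univ.image ι), X j * d j := by
        rw [← Finset.sum_image (f := fun j => X j * d j) (g := ι) (fun a _ b _ h => hι h)]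
        rw [Finset.sum_sdiff_eq_sub (Finset.subset_univ _)]
        ring
      have hrest : -(C * (gam A C m * z)) ≤ ∑ j ∈ Finset.univ \ (Finset.univ.image ι), X j * d j := by
        have hY0 : 0 ≤ gam A C m * z := by
          have := hgp m
          have : 0 ≤ gam A C m := by linarith
          positivity
        have h3 : ∀ j ∈ Finset.univ \ (Finset.univ.image ι), -((gam A C m * z) * |d j|) ≤ X j * d j := by
          intro j hj
          have hj' : j ∉ Set.range ι := by
            intro hjr
            rw [Finset.mem_sdiff] at hj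
            apply hj.2
            obtain ⟨i, rfl⟩ := hjr
            exact Finset.mem_image_of_mem _ (Finset.mem_univ i)
          have h4 := hout j hj'
          have h5 : |X j * d j| ≤ (gam A C m * z) * |d j| := by
            rw [abs_mul]
            exact mul_le_mul_of_nonneg_right h4 (abs_nonneg _)
          exact (abs_le.mp h5).1
        refine le_trans ?_ (Finset.sum_le_sum h3)
        rw [Finset.sum_neg_distrib, ← Finset.mul_sum]
        have h6 : ∑ j ∈ Finset.univ \ (Finset.univ.image ι), |d j| ≤ C :=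
          le_trans (Finset.sum_le_sum_of_subset_of_nonneg (Finset.subset_univ _)
            (fun _ _ _ => abs_nonneg _)) (hC d hd)
        have h7 := mul_le_mul_of_nonneg_left h6 hY0
        nlinarith
      rw [hsplit]
      have := homeq m
      linarith

end Pool.Agent.Lib_helper43
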