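import Mathlib

/-!
# First-order formulas of the language of rings, with named variables, and their Gödel numbers
-/

set_option autoImplicit false

namespace Pool.Agent.RingSyn

/-- Terms of the language `{+, -, ·, 0, 1}` in the variables `x₀, x₁, …`. -/
inductive Tm : Type
  | var (n : ℕ) : Tm
  | zero : Tm
  | one : Tm
  | neg (s : Tm) : Tm
  | add (s t : Tm) : Tm
  | mul (s t : Tm) : Tm

/-- First-order formulas: equations, negation, conjunction, existential quantifier `∃ xₙ`. -/
inductive Fm : Type
  | eq (s t : Tm) : Fm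
  | not (φ : Fm) : Fm
  | and (φ ψ : Fm) : Fm
  | ex (n : ℕ) (φ : Fm) : Fm

/-- The variables of a term. -/
def Tm.vars : Tm → Finset ℕ
  | .var n => {n}
  | .zero => ∅
  | .one => ∅
  | .neg s => s.vars
  | .add s t => s.vars ∪ t.vars
  | .mul s t => s.vars ∪ t.vars

/-- The free variables of a formula. -/
def Fm.free : Fm → Finset ℕ
  | .eq s t => s.vars ∪ t.vars
  | .not φ => φ.free
  | .and φ ψ => φ.free ∪ ψ.free
  | .ex n φ => φ.free.erase n

/-- A sentence is a formula without free variables. -/
def Fm.IsSentence (φ : Fm) : Prop := φ.free = ∅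

section semantics

variable {R : Type} [CommRing R]

/-- The value of a term under the assignment `v`. -/
def Tm.val (v : ℕ → R) : Tm → R
  | .var n => v n
  | .zero => 0
  | .one => 1
  | .neg s => -s.val v
  | .add s t => s.val v + t.val v
  | .mul s t => s.val v * t.val v

/-- The formula holds in `R` under the assignment `v`. -/
def Fm.Sat (v : ℕ → R) : Fm → Prop
  | .eq s t => s.val v = t.val v
  | .not φ => ¬ φ.Sat v
  | .and φ ψ => φ.Sat v ∧ ψ.Sat v
  | .ex n φ => ∃ a : R, φ.Sat (Function.update v n a)

end semantics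

/-- The formula is true in the ring `R` (for every assignment). -/
def Fm.TrueIn (R : Type) [CommRing R] (φ : Fm) : Prop := ∀ v : ℕ → R, φ.Sat v

/-- Gödel numbers of terms. -/
def Tm.code : Tm → ℕ
  | .var n => Nat.pair 0 n
  | .zero => Nat.pair 1 0
  | .one => Nat.pair 2 0
  | .neg s => Nat.pair 3 s.code
  | .add s t => Nat.pair 4 (Nat.pair s.code t.code)
  | .mul s t => Nat.pair 5 (Nat.pair s.code t.code)

/-- Gödel numbers of formulas. -/
def Fm.code : Fm → ℕ
  | .eq s t => Nat.pair 0 (Nat.pair s.code t.code)
  | .not φ => Nat.pair 1 φ.code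
  | .and φ ψ => Nat.pair 2 (Nat.pair φ.code ψ.code)
  | .ex n φ => Nat.pair 3 (Nat.pair n φ.code)

/-- The first-order theory of the ring `R` is decidable: there is an algorithm which decides for
every sentence, given by its Gödel number, whether it is true in `R`. -/
def DecidableTheory (R : Type) [CommRing R] : Prop :=
  ∃ f : ℕ → Bool, Computable f ∧ ∀ φ : Fm, φ.IsSentence → (f φ.code = true ↔ φ.TrueIn R)

end Pool.Agent.RingSyn
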