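import Pool.Agent.Lib_helper43.RingSyn
import Pool.Agent.Lib_helper93.RingDef.Undecidable

/-!
# Undecidability of the theory of a ring in which the natural numbers are definable
-/

set_option autoImplicit false
set_option linter.unusedSectionVars false

namespace Pool.Agent.RingSyn

open FirstOrder FirstOrder.Ring FirstOrder.Language Pool.Agent.RingDef

/-- translation of terms -/
def tT {k : ℕ} : Language.ring.Term (Empty ⊕ Fin k) → Tm
  | .var (Sum.inl e) => e.elim
  | .var (Sum.inr i) => Tm.var i
  | .func (l := 0) ringFunc.zero _ => Tm.zero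
  | .func (l := 0) ringFunc.one _ => Tm.one
  | .func (l := 1) ringFunc.neg ts => Tm.neg (tT (ts 0))
  | .func (l := 2) ringFunc.add ts => Tm.add (tT (ts 0)) (tT (ts 1))
  | .func (l := 2) ringFunc.mul ts => Tm.mul (tT (ts 0)) (tT (ts 1))

/-- translation of formulas -/
def tF : {k : ℕ} → Language.ring.BoundedFormula Empty k → Fm
  | _, .falsum => Fm.not (Fm.eq Tm.zero Tm.zero)
  | _, .equal s t => Fm.eq (tT s) (tT t)
  | _, .rel R _ => R.elim
  | _, .imp a b => Fm.not (Fm.and (tF a) (Fm.not (tF b)))
  | k, .all a => Fm.not (Fm.ex k (Fm.not (tF a)))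

section

variable {R : Type} [CommRing R] [CompatibleRing R]

theorem val_tT {k : ℕ} (t : Language.ring.Term (Empty ⊕ Fin k)) (v : ℕ → R) :
    (tT t).val v = t.realize (Sum.elim default (fun i : Fin k => v i)) := by
  induction t with
  | var x =>
    rcases x with e | i
    · exact e.elim
    · rfl
  | func f ts ih =>
    cases f
    · rw [tT, Term.realize, CompatibleRing.funMap_add, Tm.val, ih, ih]
    · rw [tT, Term.realize, CompatibleRing.funMap_mul, Tm.val, ih, ih]
    · rw [tT, Term.realize, CompatibleRing.funMap_neg, Tm.val, ih]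
    · rw [tT, Term.realize, CompatibleRing.funMap_zero, Tm.val]
    · rw [tT, Term.realize, CompatibleRing.funMap_one, Tm.val]

theorem sat_tF {k : ℕ} (φ : Language.ring.BoundedFormula Empty k) (v : ℕ → R) :
    (tF φ).Sat v ↔ φ.Realize default (fun i : Fin k => v i) := by
  induction φ generalizing v with
  | falsum => simp [tF, Fm.Sat, BoundedFormula.Realize]
  | equal s t =>
    rw [tF, Fm.Sat, BoundedFormula.Realize, val_tT, val_tT]
  | rel r ts => exact r.elim
  | imp a b iha ihb =>
    rw [tF, Fm.Sat, Fm.Sat, Fm.Sat, BoundedFormula.realize_imp, iha, ihb]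
    tauto
  | @all n a ih =>
    rw [tF, Fm.Sat, Fm.Sat, BoundedFormula.realize_all]
    have key : ∀ x : R, (tF a).Sat (Function.update v n x) ↔
        a.Realize default (Fin.snoc (fun i : Fin n => v i) x) := by
      intro x
      rw [ih]
      have e : (fun i : Fin (n + 1) => Function.update v n x (i : ℕ)) =
          Fin.snoc (fun i : Fin n => v i) x := by
        funext i
        refine Fin.lastCases ?_ (fun i => ?_) i
        · simp
        · have : (i : ℕ) ≠ n := i.2.ne
          simp [Function.update_of_ne this]
      rw [e]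
    constructor
    · intro h x
      by_contra hx
      exact h ⟨x, fun h' => hx ((key x).1 h')⟩
    · rintro h ⟨x, hx⟩
      exact hx ((key x).2 (h x))

end

theorem vars_tT {k : ℕ} (t : Language.ring.Term (Empty ⊕ Fin k)) : (tT t).vars ⊆ Finset.range k := by
  induction t with
  | var x =>
    rcases x with e | i
    · exact e.elim
    · simp [tT, Tm.vars]
  | func f ts ih =>
    cases f
    · exact Finset.union_subset (ih 0) (ih 1)
    · exact Finset.union_subset (ih 0) (ih 1)
    · exact ih 0
    · simp [tT, Tm.vars]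
    · simp [tT, Tm.vars]

theorem free_tF {k : ℕ} (φ : Language.ring.BoundedFormula Empty k) :
    (tF φ).free ⊆ Finset.range k := by
  induction φ with
  | falsum => simp [tF, Fm.free, Tm.vars]
  | equal s t => exact Finset.union_subset (vars_tT s) (vars_tT t)
  | rel r ts => exact r.elim
  | imp a b iha ihb => exact Finset.union_subset iha ihb
  | @all n a ih =>
    intro x hx
    have h1 := Finset.mem_erase.1 hx
    have h2 := Finset.mem_range.1 (ih h1.2)
    exact Finset.mem_range.2 (by have := h1.1; omega)

/-- numerals -/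
def num : ℕ → Tm
  | 0 => Tm.zero
  | n + 1 => Tm.add (num n) Tm.one

theorem vars_num (n : ℕ) : (num n).vars = ∅ := by
  induction n with
  | zero => rfl
  | succ n ih => simp [num, Tm.vars, ih]

theorem val_num {R : Type} [CommRing R] (n : ℕ) (v : ℕ → R) : (num n).val v = n := by
  induction n with
  | zero => simp [num, Tm.val]
  | succ n ih => simp [num, Tm.val, ih]

/-- the sentence `∃ x₀, x₀ = n ∧ φ` -/
def st (φ : Fm) (n : ℕ) : Fm := Fm.ex 0 (Fm.and (Fm.eq (Tm.var 0) (num n)) φ)

theorem isSentence_st {φ : Fm} (h : φ.free ⊆ Finset.range 1) (n : ℕ) : (st φ n).IsSentence := by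
  have h1 : ∀ x ∈ φ.free, x = 0 := by
    intro x hx
    have := Finset.mem_range.1 (h hx)
    omega
  change ((({0} : Finset ℕ) ∪ (num n).vars) ∪ φ.free).erase 0 = ∅
  rw [vars_num, Finset.eq_empty_iff_forall_notMem]
  intro x hx
  have h2 := Finset.mem_erase.1 hx
  rcases Finset.mem_union.1 h2.2 with h3 | h3
  · rcases Finset.mem_union.1 h3 with h4 | h4
    · exact h2.1 (Finset.mem_singleton.1 h4)
    · exact absurd h4 (Finset.notMem_empty x)
  · exact h2.1 (h1 x h3)

theorem primrec_num : Primrec (fun n => (num n).code) := by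
  have h2 : (fun n => (num n).code) = fun n => Nat.rec (Nat.pair 1 0)
      (fun _ x => Nat.pair 4 (Nat.pair x (Nat.pair 2 0))) n := by
    funext n
    induction n with
    | zero => rfl
    | succ n ih =>
      change Nat.pair 4 (Nat.pair (num n).code (Nat.pair 2 0)) = _
      rw [ih]
  rw [h2]
  refine Primrec.nat_rec₁ (Nat.pair 1 0) ?_
  exact Primrec₂.natPair.comp (Primrec.const 4)
    (Primrec₂.natPair.comp Primrec.snd (Primrec.const _))

theorem primrec_st (φ : Fm) : Primrec (fun n => (st φ n).code) := by
  have h : ∀ n, (st φ n).code = Nat.pair 3 (Nat.pair 0 (Nat.pair 2 (Nat.pair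
      (Nat.pair 0 (Nat.pair (Nat.pair 0 0) (num n).code)) φ.code))) := fun n => rfl
  refine Primrec.of_eq ?_ (fun n => (h n).symm)
  exact Primrec₂.natPair.comp (Primrec.const 3) (Primrec₂.natPair.comp (Primrec.const 0)
    (Primrec₂.natPair.comp (Primrec.const 2) (Primrec₂.natPair.comp
      (Primrec₂.natPair.comp (Primrec.const 0) (Primrec₂.natPair.comp (Primrec.const _)
        primrec_num)) (Primrec.const _))))

/-- If the natural numbers are definable in a ring of characteristic zero, then its first-order
theory is undecidable. -/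
theorem not_decidableTheory {R : Type} [CommRing R] [CharZero R] [CompatibleRing R]
    (hN : NatDef R) : ¬ DecidableTheory R := by
  rintro ⟨f, hf, hdec⟩
  let f0 : ℕ →. ℕ := fun n => Nat.Partrec.Code.eval (Denumerable.ofNat Nat.Partrec.Code n) 0
  have hf0 : Nat.Partrec f0 := by
    rw [← Partrec.nat_iff]
    exact Nat.Partrec.Code.eval_part.comp (Computable.ofNat _) (Computable.const 0)
  have hD : D R (fun v : Unit → ℕ => ∃ x, x ∈ f0 (v ())) := by
    refine D.ex hN (S := fun (v : Unit → ℕ) x => x ∈ f0 (v ())) ?_
    exact (D.relabel (DP.of_partrec hN hf0) (![some (), none] : Fin 2 → Option Unit)).congr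
      fun v => Iff.rfl
  obtain ⟨φ, hφ⟩ := hD
  let φ' : Language.ring.BoundedFormula Empty 1 :=
    BoundedFormula.relabel (fun _ : Unit => (Sum.inr 0 : Empty ⊕ Fin 1)) φ
  have hφ' : ∀ (n : ℕ) (v : ℕ → R), v 0 = n → ((tF φ').Sat v ↔ (f0 n).Dom) := by
    intro n v hv
    rw [sat_tF, Part.dom_iff_mem]
    refine Iff.trans ?_ (hφ (fun _ => n))
    unfold Formula.Realize
    rw [BoundedFormula.realize_relabel]
    apply iff_of_eq
    congr 1
    · funext i
      exact hv
    · funext i
      exact i.elim0
  have hst : ∀ n : ℕ, (st (tF φ') n).TrueIn R ↔ (f0 n).Dom := by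
    intro n
    constructor
    · intro h
      obtain ⟨a, h1, h2⟩ := h 0
      have h3 : a = n := by
        have h4 : (num n).val (Function.update (0 : ℕ → R) 0 a) = n := val_num n _
        rw [← h4, ← h1]
        simp [Tm.val]
      exact (hφ' n _ (by simp [h3])).1 h2
    · intro h v
      refine ⟨n, ?_, (hφ' n _ (by simp)).2 h⟩
      change (Tm.var 0).val _ = (num n).val _
      rw [val_num]
      simp [Tm.val]
  apply ComputablePred.halting_problem 0
  rw [ComputablePred.computable_iff]
  refine ⟨fun c => f (st (tF φ') (Encodable.encode c)).code, ?_, ?_⟩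
  · exact hf.comp ((primrec_st _).to_comp.comp Computable.encode)
  · funext c
    have h1 : (f0 (Encodable.encode c)).Dom ↔ (Nat.Partrec.Code.eval c 0).Dom := by
      simp only [f0, Denumerable.ofNat_encode]
    exact propext ((h1.symm.trans (hst _).symm).trans
      (hdec _ (isSentence_st (free_tF φ') _)).symm)

end Pool.Agent.RingSyn
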