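import Mathlib

set_option autoImplicit false

namespace Pool.Agent.Lib_helper43

open Finset

/-- Value at `X` of the affine form with linear part `v` and constant term `c`. -/
noncomputable def aff {r : ℕ} (v : Fin r → ℝ) (c : ℝ) (X : Fin r → ℝ) : ℝ :=
  (∑ i, v i * X i) + c

/-- The sequence `(β, ..., β, -B, ..., -B)` with `k` leading entries `β`. -/
noncomputable def topk {r : ℕ} (β B : ℝ) (k : ℕ) : Fin r → ℝ :=
  fun i => if (i : ℕ) < k then β else -B

/-- The objective `w ↦ ⟨w, exp X⟩ - h w`. -/
noncomputable def obj {r : ℕ} (X : Fin r → ℝ) (h : (Fin r → ℝ) → ℝ) (w : Fin r → ℝ) : ℝ :=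
  (∑ i, w i * Real.exp (X i)) - h w

/-- Compatibility of `w` with `X` for the affine forms `(v j, c j)` at scale `ω`. -/
def Compat {r : ℕ} {J : Type} (v : J → Fin r → ℝ) (c : J → ℝ) (ω : ℝ) (w X : Fin r → ℝ) : Prop :=
  ∀ j, (0 < aff (v j) (c j) w → ω ≤ aff (v j) (c j) X) ∧
    (aff (v j) (c j) w < 0 → aff (v j) (c j) X ≤ -ω)

/-- Existence of a finite family with all the required properties. -/
def Good {r : ℕ} {J : Type} (v : J → Fin r → ℝ) (c : J → ℝ) (β ω B : ℝ) : Prop :=
  ∃ (W : Finset (Fin r → ℝ)) (h : (Fin r → ℝ) → ℝ),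
    (∀ w ∈ W, Antitone w ∧ ∀ i, -B ≤ w i ∧ w i ≤ β) ∧
    (∀ w ∈ W, 0 ≤ h w) ∧
    (∀ k : ℕ, topk β B k ∈ W ∧ h (topk β B k) ≤ Real.exp (β - 2 * ω)) ∧
    h (topk β B 0) = 0 ∧
    (∀ X : Fin r → ℝ, Antitone X → (∀ i, -B / 2 ≤ X i) → (∀ i, X i ≤ β + ω) →
      ∀ w ∈ W, (∀ w' ∈ W, obj X h w' ≤ obj X h w) → Compat v c ω w X)

/-- Partial stage of the construction: first coordinates at most `s`. -/
def Stage {r : ℕ} {J : Type} (v : J → Fin (r + 1) → ℝ) (c : J → ℝ) (ω B : ℝ) (s u bm : ℝ) : Prop :=
  ∃ (W : Finset (Fin (r + 1) → ℝ)) (h : (Fin (r + 1) → ℝ) → ℝ) (H : ℝ),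
    (∀ w ∈ W, Antitone w ∧ ∀ i, -B ≤ w i ∧ w i ≤ s) ∧
    (∀ w ∈ W, 0 ≤ h w) ∧
    (topk s B 0 ∈ W ∧ h (topk s B 0) = 0) ∧
    (topk s B 1 ∈ W ∧ h (topk s B 1) = H) ∧
    (∀ k : ℕ, topk s B k ∈ W ∧ h (topk s B k) ≤ H + Real.exp (s - 3 * ω)) ∧
    (∀ w ∈ W, H - h w ≤ (s - w 0) * Real.exp bm) ∧
    (∀ X : Fin (r + 1) → ℝ, Antitone X → (∀ i, -B / 2 ≤ X i) → X 0 ≤ s + u →
      ∀ w ∈ W, (∀ w' ∈ W, obj X h w' ≤ obj X h w) → Compat v c ω w X)

lemma exists_initial {r : ℕ} (P : Fin r → Prop) (hP : ∀ i j, i ≤ j → P j → P i) :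
    ∃ k : ℕ, ∀ i : Fin r, (i : ℕ) < k ↔ P i := by
  classical
  by_cases hall : ∀ i, P i
  · exact ⟨r, fun i => ⟨fun _ => hall i, fun _ => i.2⟩⟩
  · push Not at hall
    let S : Finset (Fin r) := Finset.univ.filter (fun i => ¬ P i)
    have hS : S.Nonempty := by
      obtain ⟨i, hi⟩ := hall
      exact ⟨i, by simp [S, hi]⟩
    refine ⟨(S.min' hS : Fin r), fun i => ?_⟩
    have hmem : S.min' hS ∈ S := S.min'_mem hS
    have hnP : ¬ P (S.min' hS) := by
      have := hmem
      simp only [S, Finset.mem_filter, Finset.mem_univ, true_and] at this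
      exact this
    constructor
    · intro hi
      by_contra hPi
      have : i ∈ S := by simp [S, hPi]
      have := S.min'_le i this
      exact absurd hi (not_lt.mpr (by exact_mod_cast this))
    · intro hPi
      by_contra hlt
      push Not at hlt
      exact hnP (hP _ i (by exact_mod_cast hlt) hPi)

lemma topk_cons {r : ℕ} (s B : ℝ) (k : ℕ) :
    (Fin.cons s (topk s B k : Fin r → ℝ) : Fin (r + 1) → ℝ) = topk s B (k + 1) := by
  funext i
  refine Fin.cases ?_ (fun j => ?_) i
  · simp [topk]
  · simp [topk]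

lemma topk_zero_eq {r : ℕ} (s s' B : ℝ) : (topk s B 0 : Fin r → ℝ) = topk s' B 0 := by
  funext i; simp [topk]

lemma antitone_cons {r : ℕ} {s : ℝ} {w : Fin r → ℝ} (hw : Antitone w) (hs : ∀ i, w i ≤ s) :
    Antitone (Fin.cons s w : Fin (r + 1) → ℝ) := by
  intro i j hij
  revert hij
  refine Fin.cases ?_ (fun i' => ?_) i
  · refine Fin.cases ?_ (fun j' => ?_) j
    · intro _; exact le_refl _
    · intro _; simpa using hs j'
  · refine Fin.cases ?_ (fun j' => ?_) j
    · intro h
      exact absurd h (by simp)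
    · intro h
      simpa using hw (by simpa using h)

lemma obj_cons {r : ℕ} (X : Fin (r + 1) → ℝ) (h : (Fin (r + 1) → ℝ) → ℝ) (s : ℝ) (w : Fin r → ℝ) :
    obj X h (Fin.cons s w) =
      s * Real.exp (X 0) + (∑ i, w i * Real.exp (X i.succ)) - h (Fin.cons s w) := by
  simp [obj, Fin.sum_univ_succ]

lemma stage_step {r : ℕ} {J : Type} (v : J → Fin (r + 1) → ℝ) (c : J → ℝ)
    (ω B s u bm s' u' b ω' V g : ℝ)
    (hst : Stage v c ω B s u bm)
    (hgood : Good (fun j => Fin.tail (v j)) (fun j => c j + v j 0 * s') s' ω' B)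
    (hV : ∀ j, |v j 0| ≤ V) (hω : 1 ≤ ω) (hω' : 2 * ω ≤ ω') (hB : 1 ≤ B)
    (hss : s + 1 ≤ s') (hbm : bm ≤ b) (hBs : -B ≤ s) (hs'B : s' ≤ B)
    (h1 : b + Real.log 4 ≤ s + u)
    (h2 : V * (s' - b + g) ≤ ω' / 2) (h2' : s' - b + g ≤ ω')
    (h3 : V * u' ≤ ω' / 2) (h3' : u' ≤ ω') (hg0 : 0 ≤ g)
    (hg : 1 + 2 * B * r ≤ Real.exp g) :
    Stage v c ω B s' u' b := by
  classical
  obtain ⟨W, h, H, hW1, hW2, hW3, hW4, hW5, hW6, hW7⟩ := hst
  obtain ⟨W', h', hG1, hG2, hG3, hG4, hG5⟩ := hgood
  have hV0 : 0 ≤ V ∨ IsEmpty J := by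
    by_cases hJ : Nonempty J
    · obtain ⟨j⟩ := hJ
      exact Or.inl (le_trans (abs_nonneg _) (hV j))
    · exact Or.inr (not_nonempty_iff.mp hJ)
  set H'' : ℝ := H + (s' - s) * Real.exp b with hH''
  set h'' : (Fin (r + 1) → ℝ) → ℝ := fun w => if w 0 = s' then H'' + h' (Fin.tail w) else h w with hh''
  set W'' : Finset (Fin (r + 1) → ℝ) := W ∪ W'.image (fun w => (Fin.cons s' w : Fin (r + 1) → ℝ)) with hW''
  have hs'1 : ∀ w ∈ W, w 0 ≠ s' := by
    intro w hw h0
    have := (hW1 w hw).2 0
    linarith [this.2]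
  have hh1 : ∀ w ∈ W, h'' w = h w := by
    intro w hw
    simp [hh'', hs'1 w hw]
  have hh2 : ∀ w : Fin r → ℝ, h'' (Fin.cons s' w) = H'' + h' w := by
    intro w
    simp [hh'']
  have hmem1 : ∀ w ∈ W, w ∈ W'' := fun w hw => Finset.mem_union_left _ hw
  have hmem2 : ∀ w ∈ W', (Fin.cons s' w : Fin (r + 1) → ℝ) ∈ W'' := fun w hw =>
    Finset.mem_union_right _ (Finset.mem_image_of_mem _ hw)
  have hcases : ∀ w ∈ W'', w ∈ W ∨ ∃ w' ∈ W', w = Fin.cons s' w' := by
    intro w hw
    rcases Finset.mem_union.mp hw with hw | hw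
    · exact Or.inl hw
    · obtain ⟨w', hw', rfl⟩ := Finset.mem_image.mp hw
      exact Or.inr ⟨w', hw', rfl⟩
  have hH0 : 0 ≤ H := by
    have := hW2 _ hW4.1
    rw [hW4.2] at this
    exact this
  have hexpb : 0 < Real.exp b := Real.exp_pos b
  have hH''0 : 0 ≤ H'' := by
    have : 0 ≤ (s' - s) * Real.exp b := mul_nonneg (by linarith) hexpb.le
    linarith
  have hbot : (topk s' B 0 : Fin (r + 1) → ℝ) ∈ W ∧ h (topk s' B 0) = 0 := by
    rw [topk_zero_eq s' s B]
    exact hW3
  have hmono : ∀ w ∈ W, H'' - h w ≤ (s' - w 0) * Real.exp b := by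
    intro w hw
    have e1 := hW6 w hw
    have e2 : (s - w 0) * Real.exp bm ≤ (s - w 0) * Real.exp b := by
      apply mul_le_mul_of_nonneg_left (Real.exp_le_exp.mpr hbm)
      have := (hW1 w hw).2 0
      linarith [this.2]
    have : H'' - h w = (H - h w) + (s' - s) * Real.exp b := by rw [hH'']; ring
    rw [this]
    have : (s' - w 0) * Real.exp b = (s - w 0) * Real.exp b + (s' - s) * Real.exp b := by ring
    rw [this]
    linarith
  refine ⟨W'', h'', H'', ?_, ?_, ?_, ?_, ?_, ?_, ?_⟩
  · intro w hw
    rcases hcases w hw with hw | ⟨w', hw', rfl⟩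
    · refine ⟨(hW1 w hw).1, fun i => ⟨((hW1 w hw).2 i).1, ?_⟩⟩
      have := ((hW1 w hw).2 i).2
      linarith
    · refine ⟨antitone_cons (hG1 w' hw').1 (fun i => ((hG1 w' hw').2 i).2), ?_⟩
      intro i
      refine Fin.cases ?_ (fun j => ?_) i
      · simp only [Fin.cons_zero]
        constructor
        · linarith
        · exact le_refl _
      · simp only [Fin.cons_succ]
        exact (hG1 w' hw').2 j
  · intro w hw
    rcases hcases w hw with hw | ⟨w', hw', rfl⟩
    · rw [hh1 w hw]; exact hW2 w hw
    · rw [hh2]; exact add_nonneg hH''0 (hG2 w' hw')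
  · refine ⟨hmem1 _ hbot.1, ?_⟩
    rw [hh1 _ hbot.1]; exact hbot.2
  · refine ⟨?_, ?_⟩
    · rw [← topk_cons]
      exact hmem2 _ (hG3 0).1
    · rw [← topk_cons, hh2, hG4, add_zero]
  · intro k
    rcases k with _ | k
    · refine ⟨hmem1 _ hbot.1, ?_⟩
      rw [hh1 _ hbot.1, hbot.2]
      have := Real.exp_pos (s' - 3 * ω)
      linarith
    · refine ⟨?_, ?_⟩
      · rw [← topk_cons]
        exact hmem2 _ (hG3 k).1
      · rw [← topk_cons, hh2]
        have e1 := (hG3 k).2
        have e2 : Real.exp (s' - 2 * ω') ≤ Real.exp (s' - 3 * ω) :=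
          Real.exp_le_exp.mpr (by linarith)
        linarith
  · intro w hw
    rcases hcases w hw with hw | ⟨w', hw', rfl⟩
    · rw [hh1 w hw]; exact hmono w hw
    · rw [hh2]
      simp only [Fin.cons_zero]
      have := hG2 w' hw'
      linarith
  · intro X hX hXB hXs w hw hmax
    have hx0 : 0 < Real.exp (X 0) := Real.exp_pos _
    rcases hcases w hw with hw | ⟨w', hw', rfl⟩
    · -- Case 1: `w` comes from the old family
      have hkey : X 0 ≤ b + Real.log 4 := by
        -- choose the cluster
        obtain ⟨k, hk⟩ := exists_initial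
          (fun i : Fin r => Real.exp (X 0) / (4 * B * (r + 1)) ≤ Real.exp (X i.succ))
          (by
            intro i j hij hj
            refine le_trans hj (Real.exp_le_exp.mpr (hX ?_))
            exact Fin.succ_le_succ_iff.mpr hij)
        have halt := hmax _ (hmem2 _ (hG3 k).1)
        rw [obj_cons, hh2] at halt
        have hobjw : obj X h'' w = w 0 * Real.exp (X 0)
            + (∑ i : Fin r, w i.succ * Real.exp (X i.succ)) - h w := by
          simp only [obj, Fin.sum_univ_succ]
          rw [hh1 w hw]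
        rw [hobjw] at halt
        have hw0 := (hW1 w hw).2 0
        have hsum : (∑ i : Fin r, w i.succ * Real.exp (X i.succ)) -
            (∑ i : Fin r, (topk s' B k : Fin r → ℝ) i * Real.exp (X i.succ)) ≤ Real.exp (X 0) / 2 := by
          rw [← Finset.sum_sub_distrib]
          have hbd : ∀ i ∈ (Finset.univ : Finset (Fin r)),
              w i.succ * Real.exp (X i.succ) - (topk s' B k : Fin r → ℝ) i * Real.exp (X i.succ)
                ≤ 2 * B * (Real.exp (X 0) / (4 * B * (r + 1))) := by
            intro i _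
            have hwi := (hW1 w hw).2 i.succ
            have hnn : 0 ≤ 2 * B * (Real.exp (X 0) / (4 * B * (r + 1))) := by positivity
            have hxi : 0 < Real.exp (X i.succ) := Real.exp_pos _
            by_cases hik : (i : ℕ) < k
            · simp only [topk, hik, if_true]
              have : (w i.succ - s') * Real.exp (X i.succ) ≤ 0 :=
                mul_nonpos_of_nonpos_of_nonneg (by linarith [hwi.2]) hxi.le
              nlinarith
            · simp only [topk, hik, if_false]
              have hlt : Real.exp (X i.succ) < Real.exp (X 0) / (4 * B * (r + 1)) := by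
                by_contra hcon
                push Not at hcon
                exact hik ((hk i).mpr hcon)
              have e1 : w i.succ * Real.exp (X i.succ) - -B * Real.exp (X i.succ)
                  = (w i.succ + B) * Real.exp (X i.succ) := by ring
              rw [e1]
              have e2 : w i.succ + B ≤ 2 * B := by linarith [hwi.2]
              calc (w i.succ + B) * Real.exp (X i.succ) ≤ 2 * B * Real.exp (X i.succ) :=
                    mul_le_mul_of_nonneg_right e2 hxi.le
                _ ≤ 2 * B * (Real.exp (X 0) / (4 * B * (r + 1))) :=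
                    mul_le_mul_of_nonneg_left hlt.le (by linarith)
          refine le_trans (Finset.sum_le_sum hbd) ?_
          rw [Finset.sum_const, Finset.card_univ, Fintype.card_fin, nsmul_eq_mul]
          have hBne : (4 * B * ((r : ℝ) + 1)) ≠ 0 := by positivity
          have : (r : ℝ) * (2 * B * (Real.exp (X 0) / (4 * B * (r + 1))))
              = Real.exp (X 0) / 2 * ((r : ℝ) / (r + 1)) := by
            field_simp
            ring
          rw [this]
          have hfrac : (r : ℝ) / (r + 1) ≤ 1 := by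
            rw [div_le_one (by positivity)]
            linarith
          nlinarith
        have hcost := hmono w hw
        have hcost2 : h' (topk s' B k) ≤ Real.exp b := by
          refine le_trans (hG3 k).2 (Real.exp_le_exp.mpr ?_)
          have : (0 : ℝ) ≤ ω' := by linarith
          linarith
        -- (s' - w0) (x0 - e^b) ≤ x0/2 + e^b
        have hineq : (s' - w 0) * (Real.exp (X 0) - Real.exp b) ≤ Real.exp (X 0) / 2 + Real.exp b := by
          nlinarith
        by_contra hcon
        push Not at hcon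
        have hx4 : 4 * Real.exp b < Real.exp (X 0) := by
          have : Real.exp (b + Real.log 4) < Real.exp (X 0) := Real.exp_lt_exp.mpr hcon
          rw [Real.exp_add, Real.exp_log (by norm_num)] at this
          linarith
        have hge : 1 ≤ s' - w 0 := by linarith [hw0.2]
        have : (Real.exp (X 0) - Real.exp b) ≤ (s' - w 0) * (Real.exp (X 0) - Real.exp b) := by
          nlinarith
        linarith
      have hmaxW : ∀ w' ∈ W, obj X h w' ≤ obj X h w := by
        intro w' hw'
        have e := hmax w' (hmem1 w' hw')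
        simp only [obj] at e ⊢
        rw [hh1 w' hw', hh1 w hw] at e
        exact e
      exact hW7 X hX hXB (by linarith) w hw hmaxW
    · -- Case 2: `w` comes from the new subtree
      have hlow : b - g ≤ X 0 := by
        have halt := hmax _ (hmem1 _ hW4.1)
        rw [obj_cons, hh2] at halt
        have hobjw : obj X h'' (topk s B 1) = s * Real.exp (X 0)
            + (∑ i : Fin r, (-B) * Real.exp (X i.succ)) - H := by
          simp only [obj, Fin.sum_univ_succ]
          rw [hh1 _ hW4.1, hW4.2]
          simp [topk]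
        rw [hobjw] at halt
        have hsum : (∑ i : Fin r, w' i * Real.exp (X i.succ)) -
            (∑ i : Fin r, (-B) * Real.exp (X i.succ)) ≤ 2 * B * r * Real.exp (X 0) := by
          rw [← Finset.sum_sub_distrib]
          have hbd : ∀ i ∈ (Finset.univ : Finset (Fin r)),
              w' i * Real.exp (X i.succ) - (-B) * Real.exp (X i.succ) ≤ 2 * B * Real.exp (X 0) := by
            intro i _
            have hwi := (hG1 w' hw').2 i
            have hxi : 0 < Real.exp (X i.succ) := Real.exp_pos _
            have hxi0 : Real.exp (X i.succ) ≤ Real.exp (X 0) :=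
              Real.exp_le_exp.mpr (hX (Fin.zero_le _))
            have e1 : w' i * Real.exp (X i.succ) - -B * Real.exp (X i.succ)
                = (w' i + B) * Real.exp (X i.succ) := by ring
            rw [e1]
            have e2 : w' i + B ≤ 2 * B := by linarith [hwi.2]
            calc (w' i + B) * Real.exp (X i.succ) ≤ 2 * B * Real.exp (X i.succ) :=
                  mul_le_mul_of_nonneg_right e2 hxi.le
              _ ≤ 2 * B * Real.exp (X 0) := mul_le_mul_of_nonneg_left hxi0 (by linarith)
          refine le_trans (Finset.sum_le_sum hbd) ?_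
          rw [Finset.sum_const, Finset.card_univ, Fintype.card_fin, nsmul_eq_mul]
          linarith
        have hh'0 := hG2 w' hw'
        have hineq : (s' - s) * Real.exp b ≤ (s' - s) * Real.exp (X 0) + 2 * B * r * Real.exp (X 0) := by
          linarith
        have hge : 1 ≤ s' - s := by linarith
        have hBr : 0 ≤ 2 * B * (r : ℝ) := by positivity
        have hineq2 : (s' - s) * Real.exp b ≤ (s' - s) * ((1 + 2 * B * r) * Real.exp (X 0)) := by
          have : 2 * B * r * Real.exp (X 0) ≤ (s' - s) * (2 * B * r * Real.exp (X 0)) := by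
            have : 0 ≤ 2 * B * r * Real.exp (X 0) := by positivity
            nlinarith
          nlinarith
        have hineq3 : Real.exp b ≤ (1 + 2 * B * r) * Real.exp (X 0) :=
          le_of_mul_le_mul_left hineq2 (by linarith)
        have hineq4 : Real.exp b ≤ Real.exp (g + X 0) := by
          rw [Real.exp_add]
          exact le_trans hineq3 (mul_le_mul_of_nonneg_right hg hx0.le)
        have := Real.exp_le_exp.mp hineq4
        linarith
      have hmaxW' : ∀ w1 ∈ W', obj (Fin.tail X) h' w1 ≤ obj (Fin.tail X) h' w' := by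
        intro w1 hw1
        have e := hmax _ (hmem2 w1 hw1)
        rw [obj_cons, obj_cons, hh2, hh2] at e
        simp only [obj, Fin.tail]
        linarith
      have hXtail : Antitone (Fin.tail X) := by
        intro i j hij
        exact hX (Fin.succ_le_succ_iff.mpr hij)
      have hcomp := hG5 (Fin.tail X) hXtail (fun i => hXB i.succ)
        (fun i => le_trans (hX (Fin.zero_le _)) (by linarith)) w' hw' hmaxW'
      intro j
      have hc := hcomp j
      have hVj := hV j
      have hV0' : 0 ≤ V := le_trans (abs_nonneg _) hVj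
      have eq1 : aff (v j) (c j) (Fin.cons s' w') = aff (Fin.tail (v j)) (c j + v j 0 * s') w' := by
        simp only [aff, Fin.sum_univ_succ, Fin.cons_zero, Fin.cons_succ, Fin.tail]
        ring
      have eq2 : aff (v j) (c j) X =
          aff (Fin.tail (v j)) (c j + v j 0 * s') (Fin.tail X) + v j 0 * (X 0 - s') := by
        simp only [aff, Fin.sum_univ_succ, Fin.tail]
        ring
      have hdiff : |v j 0 * (X 0 - s')| ≤ ω' / 2 := by
        rw [abs_mul]
        have hle : |X 0 - s'| ≤ s' - b + g ∨ |X 0 - s'| ≤ u' := by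
          rcases le_total (X 0) s' with hle | hle
          · left
            rw [abs_of_nonpos (by linarith)]
            linarith
          · right
            rw [abs_of_nonneg (by linarith)]
            linarith
        rcases hle with hle | hle
        · calc |v j 0| * |X 0 - s'| ≤ V * (s' - b + g) :=
              mul_le_mul hVj hle (abs_nonneg _) hV0'
            _ ≤ ω' / 2 := h2
        · calc |v j 0| * |X 0 - s'| ≤ V * u' :=
              mul_le_mul hVj hle (abs_nonneg _) hV0'
            _ ≤ ω' / 2 := h3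
      have habs := abs_le.mp hdiff
      rw [eq1, eq2]
      constructor
      · intro hpos
        have := hc.1 hpos
        linarith [habs.1]
      · intro hneg
        have := hc.2 hneg
        linarith [habs.2]

lemma stage_base {r : ℕ} {J : Type} (v : J → Fin (r + 1) → ℝ) (c : J → ℝ) (ω B u bm : ℝ)
    (hB : 1 ≤ B) (hu : u < B / 2) : Stage v c ω B (-B) u bm := by
  classical
  have htop : ∀ k : ℕ, (topk (-B) B k : Fin (r + 1) → ℝ) = fun _ => -B := by
    intro k; funext i; simp [topk]
  refine ⟨{fun _ => -B}, fun _ => 0, 0, ?_, ?_, ?_, ?_, ?_, ?_, ?_⟩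
  · intro w hw
    rw [Finset.mem_singleton] at hw
    subst hw
    exact ⟨fun _ _ _ => le_refl _, fun _ => ⟨le_refl _, le_refl _⟩⟩
  · intro w _; exact le_refl _
  · rw [htop]; exact ⟨Finset.mem_singleton_self _, rfl⟩
  · rw [htop]; exact ⟨Finset.mem_singleton_self _, rfl⟩
  · intro k
    rw [htop]
    exact ⟨Finset.mem_singleton_self _, by have := Real.exp_pos (-B - 3 * ω); linarith⟩
  · intro w hw
    rw [Finset.mem_singleton] at hw
    subst hw
    simp
  · intro X _ hXB hX0 w _ _
    have := hXB 0
    linarith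

lemma log_four_le : Real.log 4 ≤ 2 := by
  have h : Real.log 4 = 2 * Real.log 2 := by
    rw [show (4 : ℝ) = 2 ^ 2 by norm_num, Real.log_pow]
    norm_num
  rw [h]
  have := Real.log_two_lt_d9
  linarith

lemma stage_chain {r : ℕ} {J : Type} (v : J → Fin (r + 1) → ℝ) (c : J → ℝ)
    (ω B V C g δ η : ℝ) (Crit : Set ℝ)
    (hV : ∀ j, |v j 0| ≤ V) (hV0 : 0 ≤ V) (hVC : 2 * V ≤ C) (hC1 : 1 ≤ C)
    (hω : 1 ≤ ω) (hδ : 2 * ω ≤ δ) (hδη : 2 * δ ≤ η) (hB : 4 * η + 12 ≤ B)
    (hg0 : 0 ≤ g) (hgδ : 2 * g ≤ δ) (hg : 1 + 2 * B * r ≤ Real.exp g)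
    (hsep : ∀ t ∈ Crit, ∀ t' ∈ Crit, t = t' ∨ 2 * η ≤ |t - t'|)
    (hN : ∀ s, -(3 / 4) * B ≤ s → s ≤ B → (∀ t ∈ Crit, η / 2 ≤ |s - t|) →
      Good (fun j => Fin.tail (v j)) (fun j => c j + v j 0 * s) s (C * δ) B)
    (hC : ∀ s ∈ Crit, -(3 / 4) * B ≤ s → s ≤ B →
      Good (fun j => Fin.tail (v j)) (fun j => c j + v j 0 * s) s (C * η) B) :
    ∀ N : ℕ, ∀ s : ℝ, -(3 / 4) * B ≤ s → s ≤ B → s < -(3 / 4) * B + N * (δ / 2) →
      ((∀ t ∈ Crit, η / 2 ≤ |s - t|) → Stage v c ω B s δ (s - δ / 2)) ∧
      (s ∈ Crit → Stage v c ω B s η (s - η / 2)) := by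
  have hl4 := log_four_le
  have hCδ : δ ≤ C * δ := by nlinarith
  have hCη : η ≤ C * η := by nlinarith
  have hVδ : V * δ ≤ C * δ / 2 := by nlinarith
  have hVη : V * η ≤ C * η / 2 := by nlinarith
  intro N
  induction N with
  | zero =>
    intro s h1 _ h2
    exfalso
    simp at h2
    linarith
  | succ N ih =>
    intro s hs1 hs2 hs3
    push_cast at hs3
    constructor
    · intro hP
      have hgood := hN s hs1 hs2 hP
      -- the base step
      have base : s - δ / 2 + Real.log 4 ≤ -B + (B / 2 - 1) → Stage v c ω B s δ (s - δ / 2) := by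
        intro hb
        refine stage_step v c ω B (-B) (B / 2 - 1) (-B) s δ (s - δ / 2) (C * δ) V g
          (stage_base v c ω B (B / 2 - 1) (-B) (by linarith) (by linarith)) hgood hV hω
          (by linarith) (by linarith) (by linarith) (by linarith) (by linarith) hs2 hb ?_ ?_ hVδ hCδ
          hg0 hg
        · nlinarith
        · linarith
      by_cases hA : -(3 / 4) * B ≤ s - δ / 2
      · by_cases hP' : ∀ t ∈ Crit, η / 2 ≤ |s - δ / 2 - t|
        · have ihs := (ih (s - δ / 2) hA (by linarith) (by linarith)).1 hP'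
          refine stage_step v c ω B (s - δ / 2) δ (s - δ / 2 - δ / 2) s δ (s - δ / 2) (C * δ) V g
            ihs hgood hV hω (by linarith) (by linarith) (by linarith) (by linarith) (by linarith) hs2
            (by linarith) ?_ ?_ hVδ hCδ hg0 hg
          · nlinarith
          · linarith
        · push Not at hP'
          obtain ⟨t, ht, hlt⟩ := hP'
          have hPt := hP t ht
          have h3 := abs_lt.mp hlt
          have ht1 : t ≤ s - η / 2 := by
            by_contra hcon
            push Not at hcon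
            rcases le_total s t with hle | hle
            · rw [abs_of_nonpos (by linarith)] at hPt
              linarith [h3.1]
            · rw [abs_of_nonneg (by linarith)] at hPt
              linarith
          have ht2 : s - δ / 2 - η / 2 < t := by linarith [h3.2]
          by_cases htB : -(3 / 4) * B ≤ t
          · have iht := (ih t htB (by linarith) (by linarith)).2 ht
            refine stage_step v c ω B t η (t - η / 2) s δ (s - δ / 2) (C * δ) V g
              iht hgood hV hω (by linarith) (by linarith) (by linarith) (by linarith) (by linarith) hs2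
              (by linarith) ?_ ?_ hVδ hCδ hg0 hg
            · nlinarith
            · linarith
          · push Not at htB
            apply base
            linarith
      · push Not at hA
        apply base
        linarith
    · intro hsC
      have hgood := hC s hsC hs1 hs2
      have hP' : ∀ t ∈ Crit, η / 2 ≤ |s - η / 2 - t| := by
        intro t ht
        rcases hsep s hsC t ht with h | h
        · subst h
          rw [show s - η / 2 - s = -(η / 2) by ring, abs_neg, abs_of_nonneg (by linarith)]
        · have h3 : |s - t| ≤ |s - η / 2 - t| + η / 2 := by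
            have e : s - t = (s - η / 2 - t) + η / 2 := by ring
            calc |s - t| = |(s - η / 2 - t) + η / 2| := by rw [← e]
              _ ≤ |s - η / 2 - t| + |η / 2| := abs_add_le _ _
              _ = |s - η / 2 - t| + η / 2 := by rw [abs_of_nonneg (by linarith : (0:ℝ) ≤ η / 2)]
          linarith
      by_cases hA : -(3 / 4) * B ≤ s - η / 2
      · have ihs := (ih (s - η / 2) hA (by linarith) (by linarith)).1 hP'
        refine stage_step v c ω B (s - η / 2) δ (s - η / 2 - δ / 2) s η (s - η / 2) (C * η) V g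
          ihs hgood hV hω (by linarith) (by linarith) (by linarith) (by linarith) (by linarith) hs2
          (by linarith) ?_ ?_ hVη hCη hg0 hg
        · nlinarith
        · linarith
      · push Not at hA
        refine stage_step v c ω B (-B) (B / 2 - 1) (-B) s η (s - η / 2) (C * η) V g
          (stage_base v c ω B (B / 2 - 1) (-B) (by linarith) (by linarith)) hgood hV hω
          (by linarith) (by linarith) (by linarith) (by linarith) (by linarith) hs2 (by linarith)
          ?_ ?_ hVη hCη hg0 hg
        · nlinarith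
        · linarith

lemma stage_to_good {r : ℕ} {J : Type} (v : J → Fin (r + 1) → ℝ) (c : J → ℝ)
    (ω B β η : ℝ) (hω : 1 ≤ ω) (hη : 6 * ω ≤ η) (hβ : β ≤ B) (hB : 4 * B ≤ Real.exp ω)
    (hst : Stage v c ω B β η (β - η / 2)) : Good v c β ω B := by
  obtain ⟨W, h, H, hW1, hW2, hW3, hW4, hW5, hW6, hW7⟩ := hst
  refine ⟨W, h, hW1, hW2, ?_, hW3.2, ?_⟩
  · intro k
    refine ⟨(hW5 k).1, ?_⟩
    have e1 := (hW5 k).2
    have e2 := hW6 _ hW3.1
    rw [hW3.2] at e2
    have e3 : (topk β B 0 : Fin (r + 1) → ℝ) 0 = -B := by simp [topk]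
    rw [e3] at e2
    have e4 : (β - -B) * Real.exp (β - η / 2) ≤ 2 * B * Real.exp (β - η / 2) :=
      mul_le_mul_of_nonneg_right (by linarith) (Real.exp_pos _).le
    have e5 : 4 * B * Real.exp (β - η / 2) ≤ Real.exp (β - 2 * ω) := by
      calc 4 * B * Real.exp (β - η / 2) ≤ Real.exp ω * Real.exp (β - η / 2) :=
            mul_le_mul_of_nonneg_right hB (Real.exp_pos _).le
        _ = Real.exp (ω + (β - η / 2)) := by rw [Real.exp_add]
        _ ≤ Real.exp (β - 2 * ω) := Real.exp_le_exp.mpr (by linarith)
    have e6 : 2 * Real.exp (β - 3 * ω) ≤ Real.exp (β - 2 * ω) := by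
      have h2 : (2 : ℝ) ≤ Real.exp ω := by
        have := Real.add_one_le_exp ω
        linarith
      calc 2 * Real.exp (β - 3 * ω) ≤ Real.exp ω * Real.exp (β - 3 * ω) :=
            mul_le_mul_of_nonneg_right h2 (Real.exp_pos _).le
        _ = Real.exp (ω + (β - 3 * ω)) := by rw [Real.exp_add]
        _ = Real.exp (β - 2 * ω) := by congr 1; ring
    linarith
  · intro X hX hXB hXβ w hw hmax
    exact hW7 X hX hXB (by have := hXβ 0; linarith) w hw hmax

lemma exists_lower {ι : Type} (S : Finset ι) (q : ι → ℝ) :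
    ∃ Q : ℝ, 1 ≤ Q ∧ ∀ i ∈ S, q i ≠ 0 → 1 ≤ Q * |q i| := by
  classical
  induction S using Finset.induction_on with
  | empty => exact ⟨1, le_refl _, by simp⟩
  | insert a S _ ih =>
    obtain ⟨Q, hQ1, hQ⟩ := ih
    refine ⟨max Q |q a|⁻¹, le_max_of_le_left hQ1, ?_⟩
    intro i hi hqi
    have hpos : 0 < |q i| := abs_pos.mpr hqi
    rcases Finset.mem_insert.mp hi with rfl | hi
    · calc (1 : ℝ) = |q i|⁻¹ * |q i| := (inv_mul_cancel₀ hpos.ne').symm
        _ ≤ max Q |q i|⁻¹ * |q i| := mul_le_mul_of_nonneg_right (le_max_right _ _) hpos.le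
    · exact le_trans (hQ i hi hqi) (mul_le_mul_of_nonneg_right (le_max_left _ _) hpos.le)

lemma exists_upper {J : Type} [Finite J] (a : J → ℝ) : ∃ V : ℝ, 0 ≤ V ∧ ∀ j, |a j| ≤ V := by
  have hfin : (Set.range fun j => |a j|).Finite := Set.finite_range _
  obtain ⟨V, hV⟩ := hfin.bddAbove
  refine ⟨max V 0, le_max_right _ _, fun j => le_max_of_le_left (hV ⟨j, rfl⟩)⟩

theorem exists_good : ∀ (r : ℕ) (J : Type) [Finite J] (v : J → Fin r → ℝ),
    ∃ (Λ : Finset (((J → ℝ) × ℝ) →ₗ[ℝ] ℝ)) (A : ℝ), 1 ≤ A ∧
      ∀ (c : J → ℝ) (β ω B : ℝ), 1 ≤ ω → 4 * ((r : ℝ) + 1) * B + 4 ≤ Real.exp ω → A * ω ≤ B →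
        -(3 / 4) * B ≤ β → β ≤ B →
        (∀ lam ∈ Λ, lam (c, β) = 0 ∨ A * ω ≤ |lam (c, β)|) → Good v c β ω B := by
  classical
  intro r
  induction r with
  | zero =>
    intro J _ v
    haveI := Fintype.ofFinite J
    refine ⟨Finset.univ.image
      (fun j : J => (LinearMap.proj j : (J → ℝ) →ₗ[ℝ] ℝ) ∘ₗ (LinearMap.fst ℝ (J → ℝ) ℝ)),
      1, le_refl _, ?_⟩
    intro c β ω B hω _ _ _ _ hsep
    refine ⟨{fun i => Fin.elim0 i}, fun _ => 0, ?_, ?_, ?_, rfl, ?_⟩
    · intro w _
      exact ⟨fun i => Fin.elim0 i, fun i => Fin.elim0 i⟩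
    · intro w _; exact le_refl _
    · intro k
      refine ⟨?_, (Real.exp_pos _).le⟩
      rw [Finset.mem_singleton]
      funext i
      exact Fin.elim0 i
    · intro X _ _ _ w _ _ j
      have h1 := hsep _ (Finset.mem_image_of_mem _ (Finset.mem_univ j))
      simp only [LinearMap.comp_apply, LinearMap.fst_apply, LinearMap.proj_apply, one_mul] at h1
      simp only [aff, Finset.univ_eq_empty, Finset.sum_empty, zero_add]
      rcases h1 with h1 | h1
      · constructor
        · intro h; rw [h1] at h; exact absurd h (lt_irrefl _)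
        · intro h; rw [h1] at h; exact absurd h (lt_irrefl _)
      · constructor
        · intro h; rwa [abs_of_pos h] at h1
        · intro h; rw [abs_of_neg h] at h1; linarith
  | succ r ih =>
    intro J _ v
    obtain ⟨Λ', A', hA', hih⟩ := ih J (fun j => Fin.tail (v j))
    set a : J → ℝ := fun j => v j 0 with ha
    set q : (((J → ℝ) × ℝ) →ₗ[ℝ] ℝ) → ℝ := fun lam => lam (a, 1) with hq
    set P : (((J → ℝ) × ℝ) →ₗ[ℝ] ℝ) → (((J → ℝ) × ℝ) →ₗ[ℝ] ℝ) := fun lam =>
      lam ∘ₗ ((LinearMap.inl ℝ (J → ℝ) ℝ) ∘ₗ (LinearMap.fst ℝ (J → ℝ) ℝ)) with hP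
    set T : (((J → ℝ) × ℝ) →ₗ[ℝ] ℝ) → (((J → ℝ) × ℝ) →ₗ[ℝ] ℝ) := fun lam =>
      (-(q lam)⁻¹) • P lam with hT
    obtain ⟨Q, hQ1, hQ⟩ := exists_lower Λ' q
    obtain ⟨V, hV0, hV⟩ := exists_upper a
    set C : ℝ := 2 * V + 2 with hCdef
    set E : ℝ := 4 * Q * A' * C with hEdef
    have hC2 : 2 ≤ C := by linarith
    have hQA : 1 ≤ Q * A' := by nlinarith
    have hE8 : 8 ≤ E := by
      have : E = 4 * (Q * A') * C := by rw [hEdef]; ring
      rw [this]; nlinarith
    set A : ℝ := 4 * E + 12 + A' * C * E * Q with hAdef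
    have hACE : 0 ≤ A' * C * E * Q := by positivity
    have hACE2 : A' * C * E ≤ A' * C * E * Q := by
      have : 0 ≤ A' * C * E := by positivity
      nlinarith
    set S := Λ'.filter (fun lam => q lam ≠ 0) with hS
    set Λ : Finset (((J → ℝ) × ℝ) →ₗ[ℝ] ℝ) :=
      ((Λ'.filter (fun lam => q lam = 0)).image P) ∪
      ((S ×ˢ S).image (fun lm => T lm.1 - T lm.2)) ∪
      (S.image (fun lam => LinearMap.snd ℝ (J → ℝ) ℝ - T lam)) with hΛ
    refine ⟨Λ, A, by linarith, ?_⟩
    intro c β ω B hω hexp hAB hβ1 hβ2 hsep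
    push_cast at hexp
    have hω0 : 0 < ω := by linarith
    have hEω : 8 * ω ≤ E * ω := by nlinarith
    have hAω : 4 * (E * ω) + 12 * ω + A' * C * E * Q * ω = A * ω := by rw [hAdef]; ring
    have hAQω : 0 ≤ A' * C * E * Q * ω := by positivity
    set δ : ℝ := 2 * ω with hδ
    set η : ℝ := E * ω with hη
    -- evaluate functionals
    have hPval : ∀ lam : ((J → ℝ) × ℝ) →ₗ[ℝ] ℝ, P lam (c, β) = lam (c, 0) := by
      intro lam
      simp [hP]
    have hTval : ∀ lam : ((J → ℝ) × ℝ) →ₗ[ℝ] ℝ, T lam (c, β) = -(q lam)⁻¹ * lam (c, 0) := by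
      intro lam
      simp only [hT, LinearMap.smul_apply, smul_eq_mul]
      rw [hPval]
    have hlin : ∀ (lam : ((J → ℝ) × ℝ) →ₗ[ℝ] ℝ) (s : ℝ),
        lam ((fun j => c j + v j 0 * s), s) = lam (c, 0) + s * q lam := by
      intro lam s
      have : (((fun j => c j + v j 0 * s), s) : (J → ℝ) × ℝ) = (c, 0) + s • (a, 1) := by
        ext j
        · simp [ha, mul_comm]
        · simp
      rw [this, map_add, map_smul, smul_eq_mul]
    have hlin2 : ∀ (lam : ((J → ℝ) × ℝ) →ₗ[ℝ] ℝ) (s : ℝ), q lam ≠ 0 →
        lam ((fun j => c j + v j 0 * s), s) = q lam * (s - T lam (c, β)) := by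
      intro lam s hne
      rw [hlin, hTval]
      field_simp
      ring
    set Crit : Set ℝ := {t | t = β ∨ ∃ lam ∈ S, t = T lam (c, β)} with hCrit
    have hsepP : ∀ lam ∈ Λ', q lam = 0 → lam (c, 0) = 0 ∨ A * ω ≤ |lam (c, 0)| := by
      intro lam hlam hq0
      have hmem : P lam ∈ Λ := by
        rw [hΛ]
        apply Finset.mem_union_left
        apply Finset.mem_union_left
        exact Finset.mem_image_of_mem _ (Finset.mem_filter.mpr ⟨hlam, hq0⟩)
      have := hsep _ hmem
      rwa [hPval] at this
    have hsepT : ∀ lam ∈ S, ∀ mu ∈ S, T lam (c, β) = T mu (c, β) ∨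
        A * ω ≤ |T lam (c, β) - T mu (c, β)| := by
      intro lam hlam mu hmu
      have hmem : T lam - T mu ∈ Λ := by
        rw [hΛ]
        apply Finset.mem_union_left
        apply Finset.mem_union_right
        exact Finset.mem_image.mpr ⟨(lam, mu), Finset.mem_product.mpr ⟨hlam, hmu⟩, rfl⟩
      have := hsep _ hmem
      rw [LinearMap.sub_apply] at this
      rcases this with h | h
      · left; linarith
      · right; exact h
    have hsepβ : ∀ lam ∈ S, β = T lam (c, β) ∨ A * ω ≤ |β - T lam (c, β)| := by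
      intro lam hlam
      have hmem : LinearMap.snd ℝ (J → ℝ) ℝ - T lam ∈ Λ := by
        rw [hΛ]
        apply Finset.mem_union_right
        exact Finset.mem_image_of_mem _ hlam
      have := hsep _ hmem
      rw [LinearMap.sub_apply, LinearMap.snd_apply] at this
      rcases this with h | h
      · left; simp only at h; linarith
      · right; exact h
    have hCritsep : ∀ t ∈ Crit, ∀ t' ∈ Crit, t = t' ∨ A * ω ≤ |t - t'| := by
      rintro t (rfl | ⟨lam, hlam, rfl⟩) t' (rfl | ⟨mu, hmu, rfl⟩)
      · left; rfl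
      · exact hsepβ mu hmu
      · rcases hsepβ lam hlam with h | h
        · left; exact h.symm
        · right; rwa [abs_sub_comm]
      · exact hsepT lam hlam mu hmu
    have hexp' : ∀ ω' : ℝ, ω ≤ ω' → 4 * ((r : ℝ) + 1) * B + 4 ≤ Real.exp ω' := by
      intro ω' h
      have h1 : Real.exp ω ≤ Real.exp ω' := Real.exp_le_exp.mpr h
      have hB0 : 0 ≤ B := by nlinarith
      nlinarith
    have hCδ : ω ≤ C * δ := by nlinarith
    have hCη : ω ≤ C * η := by nlinarith
    have hB0 : 12 * ω ≤ B := by nlinarith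
    have hN : ∀ s, -(3 / 4) * B ≤ s → s ≤ B → (∀ t ∈ Crit, η / 2 ≤ |s - t|) →
        Good (fun j => Fin.tail (v j)) (fun j => c j + v j 0 * s) s (C * δ) B := by
      intro s hs1 hs2 hP
      refine hih _ s (C * δ) B (by linarith) (hexp' _ hCδ) ?_ hs1 hs2 ?_
      · have : A' * (C * δ) ≤ A' * C * E * ω := by
          have h0 : 0 ≤ A' * C := by positivity
          have : A' * (C * δ) = A' * C * (2 * ω) := by rw [hδ]; ring
          rw [this]
          have : A' * C * E * ω = A' * C * (E * ω) := by ring
          rw [this]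
          exact mul_le_mul_of_nonneg_left (by linarith) h0
        nlinarith
      · intro lam hlam
        by_cases hq0 : q lam = 0
        · rcases hsepP lam hlam hq0 with h | h
          · left; rw [hlin, hq0, h]; ring
          · right
            rw [hlin, hq0, mul_zero, add_zero]
            refine le_trans ?_ h
            have h0 : 0 ≤ A' * C := by positivity
            have : A' * (C * δ) = A' * C * (2 * ω) := by rw [hδ]; ring
            rw [this]
            have h1 : A' * C * (2 * ω) ≤ A' * C * (E * ω) :=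
              mul_le_mul_of_nonneg_left (by linarith) h0
            nlinarith
        · right
          rw [hlin2 lam s hq0, abs_mul]
          have hmem : T lam (c, β) ∈ Crit := Or.inr ⟨lam, Finset.mem_filter.mpr ⟨hlam, hq0⟩, rfl⟩
          have h1 := hP _ hmem
          have h2 := hQ lam hlam hq0
          have hqpos : 0 < |q lam| := abs_pos.mpr hq0
          have h3 : A' * (C * δ) ≤ |q lam| * (η / 2) := by
            have e1 : |q lam| * (η / 2) = (Q * |q lam|) * (A' * (C * δ)) := by
              rw [hη, hEdef, hδ]; ring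
            rw [e1]
            have : 0 ≤ A' * (C * δ) := by positivity
            nlinarith
          exact le_trans h3 (mul_le_mul_of_nonneg_left h1 hqpos.le)
    have hCg : ∀ s ∈ Crit, -(3 / 4) * B ≤ s → s ≤ B →
        Good (fun j => Fin.tail (v j)) (fun j => c j + v j 0 * s) s (C * η) B := by
      intro s hsC hs1 hs2
      refine hih _ s (C * η) B (by linarith) (hexp' _ hCη) ?_ hs1 hs2 ?_
      · have : A' * (C * η) = A' * C * E * ω := by rw [hη]; ring
        nlinarith
      · intro lam hlam
        by_cases hq0 : q lam = 0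
        · rcases hsepP lam hlam hq0 with h | h
          · left; rw [hlin, hq0, h]; ring
          · right
            rw [hlin, hq0, mul_zero, add_zero]
            refine le_trans ?_ h
            have : A' * (C * η) = A' * C * E * ω := by rw [hη]; ring
            nlinarith
        · rw [hlin2 lam s hq0]
          have hmem : T lam (c, β) ∈ Crit := Or.inr ⟨lam, Finset.mem_filter.mpr ⟨hlam, hq0⟩, rfl⟩
          rcases hCritsep s hsC _ hmem with h | h
          · left; rw [← h]; ring
          · right
            rw [abs_mul]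
            have h2 := hQ lam hlam hq0
            have hqpos : 0 < |q lam| := abs_pos.mpr hq0
            have h3 : A' * (C * η) ≤ |q lam| * (A * ω) := by
              have e1 : A' * C * E * ω ≤ (Q * |q lam|) * (A' * C * E * ω) := by
                have : 0 ≤ A' * C * E * ω := by positivity
                nlinarith
              have e2 : A' * (C * η) = A' * C * E * ω := by rw [hη]; ring
              rw [e2]
              refine le_trans e1 ?_
              have e3 : (Q * |q lam|) * (A' * C * E * ω) = |q lam| * (A' * C * E * Q * ω) := by ring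
              rw [e3]
              apply mul_le_mul_of_nonneg_left _ hqpos.le
              linarith
            exact le_trans h3 (mul_le_mul_of_nonneg_left h hqpos.le)
    -- the number of steps
    obtain ⟨N, hNN⟩ := exists_nat_gt ((β + (3 / 4) * B) / (δ / 2))
    have hδpos : 0 < δ / 2 := by rw [hδ]; linarith
    have hNlt : β < -(3 / 4) * B + N * (δ / 2) := by
      rw [div_lt_iff₀ hδpos] at hNN
      linarith
    have hchain := stage_chain v c ω B V C ω δ η Crit hV hV0 (by linarith) (by linarith) hω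
      (le_refl _) (by rw [hδ]; linarith) (by linarith) (by linarith) (le_refl _)
      (by
        have hB0' : 0 ≤ B := by linarith
        have hr : (0 : ℝ) ≤ r := Nat.cast_nonneg r
        nlinarith)
      (by
        intro t ht t' ht'
        rcases hCritsep t ht t' ht' with h | h
        · left; exact h
        · right; linarith)
      hN hCg N β hβ1 hβ2 hNlt
    exact stage_to_good v c ω B β η hω (by linarith) hβ2
      (by
        have hB0' : 0 ≤ B := by linarith
        have hr : (0 : ℝ) ≤ r := Nat.cast_nonneg r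
        nlinarith)
      (hchain.2 (Or.inl rfl))

end Pool.Agent.Lib_helper43
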